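import Mathlib

set_option autoImplicit false

open Finset

namespace Pool.Agent.Helper35.NonnegBasis

lemma conv2 {p : ℝ} (hp : 1 ≤ p) {l : ℝ} (hl0 : 0 < l) (hl1 : l < 1) {u v : ℝ}
    (hu : 0 ≤ u) (hv : 0 ≤ v) :
    (u + v) ^ p ≤ l ^ (1 - p) * u ^ p + (1 - l) ^ (1 - p) * v ^ p := by
  have h1l : 0 < 1 - l := by linarith
  have h := (convexOn_rpow hp).2 (x := u / l) (y := v / (1 - l))
    (Set.mem_Ici.mpr (by positivity)) (Set.mem_Ici.mpr (by positivity)) hl0.le h1l.le (by ring)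
  simp only [smul_eq_mul] at h
  have e1 : l * (u / l) + (1 - l) * (v / (1 - l)) = u + v := by field_simp
  have e2 : l * (u / l) ^ p = l ^ (1 - p) * u ^ p := by
    rw [Real.div_rpow hu hl0.le, Real.rpow_sub hl0, Real.rpow_one]; ring
  have e3 : (1 - l) * (v / (1 - l)) ^ p = (1 - l) ^ (1 - p) * v ^ p := by
    rw [Real.div_rpow hv h1l.le, Real.rpow_sub h1l, Real.rpow_one]; ring
  rw [e1, e2, e3] at h
  exact h

lemma abs_conv2 {p : ℝ} (hp : 1 ≤ p) {l : ℝ} (hl0 : 0 < l) (hl1 : l < 1) (u v : ℝ) :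
    |u + v| ^ p ≤ l ^ (1 - p) * |u| ^ p + (1 - l) ^ (1 - p) * |v| ^ p :=
  (Real.rpow_le_rpow (abs_nonneg _) (abs_add_le u v) (by linarith)).trans
    (conv2 hp hl0 hl1 (abs_nonneg u) (abs_nonneg v))

/-- truncation of a coefficient sequence -/
def tr (b : ℕ → ℝ) (J : ℕ) : ℕ → ℝ := fun r => if r < J then b r else 0

lemma abs_tr_le (b : ℕ → ℝ) (J r : ℕ) : |tr b J r| ≤ |b r| := by
  unfold tr; split_ifs <;> simp

/-- hierarchical part -/
noncomputable def W (p t : ℝ) : ℕ → (ℕ → ℝ) → ℝ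
  | 0, _ => 0
  | (l + 1), b => W p t l b + W p t l (fun r => b (2 ^ l + r))
      + t * ((2 : ℝ) ^ (((l + 1 : ℕ) : ℝ) * (1 - p)) * |∑ r ∈ range (2 ^ (l + 1)), b r| ^ p)

lemma W_nonneg (p t : ℝ) (ht : 0 ≤ t) (l : ℕ) : ∀ b : ℕ → ℝ, 0 ≤ W p t l b := by
  induction l with
  | zero => intro b; simp [W]
  | succ l ih =>
    intro b
    have h1 := ih b
    have h2 := ih (fun r => b (2 ^ l + r))
    simp only [W]
    positivity

lemma W_congr (p t : ℝ) (l : ℕ) : ∀ b b' : ℕ → ℝ, (∀ r < 2 ^ l, b r = b' r) →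
    W p t l b = W p t l b' := by
  induction l with
  | zero => intro b b' _; simp [W]
  | succ l ih =>
    intro b b' h
    have h2 : (2 : ℕ) ^ (l + 1) = 2 ^ l + 2 ^ l := by ring
    simp only [W]
    rw [ih b b' (fun r hr => h r (by omega)),
      ih (fun r => b (2 ^ l + r)) (fun r => b' (2 ^ l + r)) (fun r hr => h _ (by omega)),
      Finset.sum_congr rfl (fun r hr => h r (Finset.mem_range.mp hr))]

lemma W_zero (p t : ℝ) (hp : 1 ≤ p) (l : ℕ) : W p t l (fun _ => 0) = 0 := by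
  induction l with
  | zero => simp [W]
  | succ l ih =>
    simp only [W, ih, Finset.sum_const_zero, abs_zero]
    rw [Real.zero_rpow (by linarith)]
    ring

lemma sum_split (l : ℕ) (b : ℕ → ℝ) :
    ∑ r ∈ range (2 ^ (l + 1)), b r = ∑ r ∈ range (2 ^ l), b r + ∑ r ∈ range (2 ^ l), b (2 ^ l + r) := by
  rw [show (2 : ℕ) ^ (l + 1) = 2 ^ l + 2 ^ l by ring, Finset.sum_range_add]

lemma W_lower (p t : ℝ) (hp : 1 ≤ p) (ht : 0 ≤ t) (l : ℕ) : ∀ b : ℕ → ℝ,
    t * (l * ((2 : ℝ) ^ ((l : ℝ) * (1 - p)) * |∑ r ∈ range (2 ^ l), b r| ^ p)) ≤ W p t l b := by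
  induction l with
  | zero => intro b; simp [W]
  | succ l ih =>
    intro b
    have h1 := ih b
    have h2 := ih (fun r => b (2 ^ l + r))
    simp only [W]
    set A := ∑ r ∈ range (2 ^ l), b r with hA
    set B := ∑ r ∈ range (2 ^ l), b (2 ^ l + r) with hB
    have hs : ∑ r ∈ range (2 ^ (l + 1)), b r = A + B := sum_split l b
    rw [hs]
    have h3 : |A + B| ^ p ≤ (1 / 2 : ℝ) ^ (1 - p) * |A| ^ p + (1 - 1 / 2 : ℝ) ^ (1 - p) * |B| ^ p :=
      abs_conv2 hp (by norm_num) (by norm_num) A B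
    have h4 : (2 : ℝ) ^ (((l + 1 : ℕ) : ℝ) * (1 - p)) = (2 : ℝ) ^ ((l : ℝ) * (1 - p)) * 2 ^ (1 - p) := by
      rw [← Real.rpow_add (by norm_num)]
      push_cast; ring_nf
    have h5 : (2 : ℝ) ^ (1 - p) * (1 / 2 : ℝ) ^ (1 - p) = 1 := by
      rw [← Real.mul_rpow (by norm_num) (by norm_num)]; norm_num
    have h6 : (2 : ℝ) ^ (((l + 1 : ℕ) : ℝ) * (1 - p)) * |A + B| ^ p
        ≤ (2 : ℝ) ^ ((l : ℝ) * (1 - p)) * (|A| ^ p + |B| ^ p) := by
      rw [h4]
      have h7 : (0 : ℝ) ≤ (2 : ℝ) ^ ((l : ℝ) * (1 - p)) := by positivity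
      have h8 : (2 : ℝ) ^ (1 - p) * |A + B| ^ p ≤ |A| ^ p + |B| ^ p := by
        have h9 : (0 : ℝ) ≤ (2 : ℝ) ^ (1 - p) := by positivity
        have h10 := mul_le_mul_of_nonneg_left h3 h9
        have h11 : (1 - 1 / 2 : ℝ) = 1 / 2 := by norm_num
        rw [h11] at h10
        calc (2 : ℝ) ^ (1 - p) * |A + B| ^ p
            ≤ 2 ^ (1 - p) * ((1 / 2) ^ (1 - p) * |A| ^ p + (1 / 2) ^ (1 - p) * |B| ^ p) := h10
          _ = (2 ^ (1 - p) * (1 / 2) ^ (1 - p)) * (|A| ^ p + |B| ^ p) := by ring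
          _ = |A| ^ p + |B| ^ p := by rw [h5, one_mul]
      calc (2 : ℝ) ^ ((l : ℝ) * (1 - p)) * 2 ^ (1 - p) * |A + B| ^ p
          = (2 : ℝ) ^ ((l : ℝ) * (1 - p)) * (2 ^ (1 - p) * |A + B| ^ p) := by ring
        _ ≤ _ := mul_le_mul_of_nonneg_left h8 h7
    have hl0 : (0 : ℝ) ≤ l := Nat.cast_nonneg l
    have h12 : t * (l * ((2 : ℝ) ^ (((l + 1 : ℕ) : ℝ) * (1 - p)) * |A + B| ^ p))
        ≤ t * (l * ((2 : ℝ) ^ ((l : ℝ) * (1 - p)) * |A| ^ p))
          + t * (l * ((2 : ℝ) ^ ((l : ℝ) * (1 - p)) * |B| ^ p)) := by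
      calc t * (l * ((2 : ℝ) ^ (((l + 1 : ℕ) : ℝ) * (1 - p)) * |A + B| ^ p))
          ≤ t * (l * ((2 : ℝ) ^ ((l : ℝ) * (1 - p)) * (|A| ^ p + |B| ^ p))) := by gcongr
        _ = _ := by ring
    have h13 : t * (((l + 1 : ℕ) : ℝ) * ((2 : ℝ) ^ (((l + 1 : ℕ) : ℝ) * (1 - p)) * |A + B| ^ p))
        = t * (l * ((2 : ℝ) ^ (((l + 1 : ℕ) : ℝ) * (1 - p)) * |A + B| ^ p))
          + t * ((2 : ℝ) ^ (((l + 1 : ℕ) : ℝ) * (1 - p)) * |A + B| ^ p) := by
      push_cast; ring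
    rw [h13]
    linarith

lemma abs_sum_tr_le (b : ℕ → ℝ) (J N : ℕ) :
    |∑ r ∈ range N, tr b J r| ≤ ∑ r ∈ range N, |b r| :=
  (Finset.abs_sum_le_sum_abs _ _).trans (Finset.sum_le_sum (fun r _ => abs_tr_le b J r))

lemma tr_shift (b : ℕ → ℝ) (J m : ℕ) :
    (fun r => tr b J (m + r)) = tr (fun r => b (m + r)) (J - m) := by
  funext r
  unfold tr
  by_cases h : m + r < J
  · rw [if_pos h, if_pos (by omega)]
  · rw [if_neg h, if_neg (by omega)]

lemma tr_zero (b : ℕ → ℝ) : tr b 0 = fun _ => 0 := by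
  funext r; simp [tr]

/-- Hardy type estimate for truncations -/
lemma W_trunc (p t : ℝ) (hp : 1 < p) (ht : 0 ≤ t) (ρ κ C : ℝ)
    (hρ : ρ = (3 / 2 : ℝ) ^ (1 - p)) (hκ : κ = ρ / (1 - ρ)) (hC : C = (1 + κ) * 2 ^ (p - 1))
    (l : ℕ) : ∀ (b : ℕ → ℝ) (J : ℕ), ∃ T : ℝ,
      W p t l (tr b J) ≤ W p t l b + t * T ∧
      T + κ * ((2 : ℝ) ^ ((l : ℝ) * (1 - p)) * (∑ r ∈ range (2 ^ l), |b r|) ^ p)
        ≤ C * ∑ r ∈ range (2 ^ l), |b r| ^ p := by
  have hρ0 : 0 < ρ := by rw [hρ]; positivity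
  have hρ1 : ρ < 1 := by
    rw [hρ]
    exact Real.rpow_lt_one_of_one_lt_of_neg (by norm_num) (by linarith)
  have h1ρ : 0 < 1 - ρ := by linarith
  have hκ0 : 0 ≤ κ := by rw [hκ]; positivity
  have hκρ : (1 + κ) * ρ = κ := by rw [hκ]; field_simp; ring
  have h2p : (1 : ℝ) ≤ 2 ^ (p - 1) := Real.one_le_rpow (by norm_num) (by linarith)
  have hCκ : κ ≤ C := by rw [hC]; nlinarith
  have hC0 : 0 ≤ C := hκ0.trans hCκ
  induction l with
  | zero =>
    intro b J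
    refine ⟨0, by simp [W], ?_⟩
    simp only [pow_zero, Finset.range_one, Finset.sum_singleton, Nat.cast_zero, zero_mul,
      Real.rpow_zero, one_mul, zero_add]
    exact mul_le_mul_of_nonneg_right hCκ (by positivity)
  | succ l ih =>
    intro b J
    -- key recursion
    have key : ∀ X Y E : ℝ, 0 ≤ X → 0 ≤ Y → Y ^ p ≤ ((2 : ℝ) ^ l) ^ (p - 1) * E →
        (2 : ℝ) ^ (((l + 1 : ℕ) : ℝ) * (1 - p)) * (X + Y) ^ p
          ≤ ρ * ((2 : ℝ) ^ ((l : ℝ) * (1 - p)) * X ^ p) + 2 ^ (p - 1) * E := by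
      intro X Y E hX hY hE
      have h3 := conv2 hp.le (l := 3 / 4) (by norm_num) (by norm_num) hX hY
      have h4 : (2 : ℝ) ^ (((l + 1 : ℕ) : ℝ) * (1 - p))
          = (2 : ℝ) ^ ((l : ℝ) * (1 - p)) * 2 ^ (1 - p) := by
        rw [← Real.rpow_add (by norm_num)]
        push_cast; ring_nf
      have h5 : (2 : ℝ) ^ (1 - p) * (3 / 4 : ℝ) ^ (1 - p) = ρ := by
        rw [hρ, ← Real.mul_rpow (by norm_num) (by norm_num)]; norm_num
      have h6 : (2 : ℝ) ^ ((l : ℝ) * (1 - p)) * ((2 : ℝ) ^ l) ^ (p - 1) = 1 := by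
        rw [← Real.rpow_natCast 2 l, ← Real.rpow_mul (by norm_num), ← Real.rpow_add (by norm_num)]
        have : (l : ℝ) * (1 - p) + (l : ℝ) * (p - 1) = 0 := by ring
        rw [this, Real.rpow_zero]
      have h7 : (2 : ℝ) ^ (1 - p) * (1 - 3 / 4 : ℝ) ^ (1 - p) = 2 ^ (p - 1) := by
        rw [← Real.mul_rpow (by norm_num) (by norm_num)]
        have : (2 : ℝ) * (1 - 3 / 4) = 2⁻¹ := by norm_num
        rw [this, Real.inv_rpow (by norm_num), ← Real.rpow_neg (by norm_num)]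
        congr 1; ring
      have h8 : (0 : ℝ) ≤ (2 : ℝ) ^ ((l : ℝ) * (1 - p)) * 2 ^ (1 - p) := by positivity
      have h9 : (0 : ℝ) ≤ (2 : ℝ) ^ ((l : ℝ) * (1 - p)) * 2 ^ (1 - p) * (1 - 3 / 4 : ℝ) ^ (1 - p) := by
        have : (0 : ℝ) ≤ (1 - 3 / 4 : ℝ) := by norm_num
        positivity
      rw [h4]
      calc (2 : ℝ) ^ ((l : ℝ) * (1 - p)) * 2 ^ (1 - p) * (X + Y) ^ p
          ≤ (2 : ℝ) ^ ((l : ℝ) * (1 - p)) * 2 ^ (1 - p)
            * ((3 / 4 : ℝ) ^ (1 - p) * X ^ p + (1 - 3 / 4 : ℝ) ^ (1 - p) * Y ^ p) :=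
              mul_le_mul_of_nonneg_left h3 h8
        _ = (2 ^ (1 - p) * (3 / 4 : ℝ) ^ (1 - p)) * ((2 : ℝ) ^ ((l : ℝ) * (1 - p)) * X ^ p)
            + (2 : ℝ) ^ ((l : ℝ) * (1 - p)) * 2 ^ (1 - p) * (1 - 3 / 4 : ℝ) ^ (1 - p) * Y ^ p := by
              ring
        _ ≤ (2 ^ (1 - p) * (3 / 4 : ℝ) ^ (1 - p)) * ((2 : ℝ) ^ ((l : ℝ) * (1 - p)) * X ^ p)
            + (2 : ℝ) ^ ((l : ℝ) * (1 - p)) * 2 ^ (1 - p) * (1 - 3 / 4 : ℝ) ^ (1 - p)
              * (((2 : ℝ) ^ l) ^ (p - 1) * E) := by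
              have := mul_le_mul_of_nonneg_left hE h9
              linarith
        _ = (2 ^ (1 - p) * (3 / 4 : ℝ) ^ (1 - p)) * ((2 : ℝ) ^ ((l : ℝ) * (1 - p)) * X ^ p)
            + ((2 : ℝ) ^ ((l : ℝ) * (1 - p)) * ((2 : ℝ) ^ l) ^ (p - 1))
              * (2 ^ (1 - p) * (1 - 3 / 4 : ℝ) ^ (1 - p)) * E := by ring
        _ = ρ * ((2 : ℝ) ^ ((l : ℝ) * (1 - p)) * X ^ p) + 2 ^ (p - 1) * E := by
              rw [h5, h6, h7]; ring
    have hpow : ∀ c : ℕ → ℝ, (∑ r ∈ range (2 ^ l), |c r|) ^ p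
        ≤ ((2 : ℝ) ^ l) ^ (p - 1) * ∑ r ∈ range (2 ^ l), |c r| ^ p := by
      intro c
      have := Real.rpow_sum_le_const_mul_sum_rpow (range (2 ^ l)) c hp.le
      rw [Finset.card_range] at this
      push_cast at this
      exact this
    set b2 : ℕ → ℝ := fun r => b (2 ^ l + r) with hb2
    set X1 := ∑ r ∈ range (2 ^ l), |b r| with hX1
    set X2 := ∑ r ∈ range (2 ^ l), |b2 r| with hX2
    set E1 := ∑ r ∈ range (2 ^ l), |b r| ^ p with hE1
    set E2 := ∑ r ∈ range (2 ^ l), |b2 r| ^ p with hE2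
    have hX10 : 0 ≤ X1 := Finset.sum_nonneg (fun r _ => abs_nonneg _)
    have hX20 : 0 ≤ X2 := Finset.sum_nonneg (fun r _ => abs_nonneg _)
    have hXs : ∑ r ∈ range (2 ^ (l + 1)), |b r| = X1 + X2 := sum_split l (fun r => |b r|)
    have hEs : ∑ r ∈ range (2 ^ (l + 1)), |b r| ^ p = E1 + E2 := sum_split l (fun r => |b r| ^ p)
    rw [hXs, hEs]
    have htop : |∑ r ∈ range (2 ^ (l + 1)), tr b J r| ^ p ≤ (X1 + X2) ^ p := by
      rw [← hXs]
      exact Real.rpow_le_rpow (abs_nonneg _) (abs_sum_tr_le b J _) (by linarith)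
    set a := (2 : ℝ) ^ (((l + 1 : ℕ) : ℝ) * (1 - p)) * (X1 + X2) ^ p with ha
    have hWtop : t * ((2 : ℝ) ^ (((l + 1 : ℕ) : ℝ) * (1 - p))
        * |∑ r ∈ range (2 ^ (l + 1)), tr b J r| ^ p) ≤ t * a := by
      rw [ha]; gcongr
    have hlast : 0 ≤ t * ((2 : ℝ) ^ (((l + 1 : ℕ) : ℝ) * (1 - p))
        * |∑ r ∈ range (2 ^ (l + 1)), b r| ^ p) := by positivity
    rcases le_or_gt J (2 ^ l) with hJ | hJ
    · obtain ⟨T, hT1, hT2⟩ := ih b J
      refine ⟨T + a, ?_, ?_⟩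
      · simp only [W]
        rw [tr_shift b J (2 ^ l), show J - 2 ^ l = 0 by omega, tr_zero, W_zero p t hp.le]
        have hn := W_nonneg p t ht l b2
        linarith
      · have hk := key X1 X2 E2 hX10 hX20 (hpow b2)
        rw [← ha] at hk
        have hk2 : (1 + κ) * a ≤ κ * ((2 : ℝ) ^ ((l : ℝ) * (1 - p)) * X1 ^ p) + C * E2 := by
          calc (1 + κ) * a ≤ (1 + κ) * (ρ * ((2 : ℝ) ^ ((l : ℝ) * (1 - p)) * X1 ^ p)
                + 2 ^ (p - 1) * E2) := mul_le_mul_of_nonneg_left hk (by linarith)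
            _ = ((1 + κ) * ρ) * ((2 : ℝ) ^ ((l : ℝ) * (1 - p)) * X1 ^ p)
                + ((1 + κ) * 2 ^ (p - 1)) * E2 := by ring
            _ = _ := by rw [hκρ, ← hC]
        linarith
    · obtain ⟨T, hT1, hT2⟩ := ih b2 (J - 2 ^ l)
      refine ⟨T + a, ?_, ?_⟩
      · simp only [W]
        rw [tr_shift b J (2 ^ l)]
        have hc : W p t l (tr b J) = W p t l b :=
          W_congr p t l _ _ (fun r hr => by unfold tr; rw [if_pos (by omega)])
        rw [hc]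
        linarith
      · have hk := key X2 X1 E1 hX20 hX10 (hpow b)
        rw [add_comm X2 X1, ← ha] at hk
        have hk2 : (1 + κ) * a ≤ κ * ((2 : ℝ) ^ ((l : ℝ) * (1 - p)) * X2 ^ p) + C * E1 := by
          calc (1 + κ) * a ≤ (1 + κ) * (ρ * ((2 : ℝ) ^ ((l : ℝ) * (1 - p)) * X2 ^ p)
                + 2 ^ (p - 1) * E1) := mul_le_mul_of_nonneg_left hk (by linarith)
            _ = ((1 + κ) * ρ) * ((2 : ℝ) ^ ((l : ℝ) * (1 - p)) * X2 ^ p)
                + ((1 + κ) * 2 ^ (p - 1)) * E1 := by ring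
            _ = _ := by rw [hκρ, ← hC]
        linarith

/-- functional of one piece of length `2 ^ L` -/
noncomputable def G0 (p t : ℝ) (L : ℕ) (x : ℝ) (b : ℕ → ℝ) : ℝ :=
  ((2 : ℝ) ^ L)⁻¹ * (∑ r ∈ range (2 ^ L), |x + b r| ^ p + W p t L b)

lemma G0_nonneg (p t : ℝ) (ht : 0 ≤ t) (L : ℕ) (x : ℝ) (b : ℕ → ℝ) : 0 ≤ G0 p t L x b := by
  unfold G0
  have := W_nonneg p t ht L b
  positivity

lemma G0_lower (p t : ℝ) (hp : 1 ≤ p) (ht : 0 ≤ t) (l : ℝ) (hl0 : 0 < l) (hl1 : l < 1) (L : ℕ)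
    (hL : (1 - l) ^ (1 - p) ≤ t * L) (x : ℝ) (b : ℕ → ℝ) :
    |x| ^ p ≤ l ^ (1 - p) * G0 p t L x b := by
  have hN0 : (0 : ℝ) < (2 : ℝ) ^ L := by positivity
  set m : ℝ := (∑ r ∈ range (2 ^ L), b r) / 2 ^ L with hm
  have hsum : ∑ r ∈ range (2 ^ L), b r = 2 ^ L * m := by rw [hm]; field_simp
  have h1 : (2 : ℝ) ^ L * |x + m| ^ p ≤ ∑ r ∈ range (2 ^ L), |x + b r| ^ p := by
    have h2 := Real.rpow_sum_le_const_mul_sum_rpow (range (2 ^ L)) (fun r => x + b r) hp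
    rw [Finset.card_range] at h2
    push_cast at h2
    have h3 : (2 : ℝ) ^ L * |x + m| ≤ ∑ r ∈ range (2 ^ L), |x + b r| := by
      refine le_trans (le_of_eq ?_) (Finset.abs_sum_le_sum_abs _ _)
      rw [Finset.sum_add_distrib, hsum, Finset.sum_const, Finset.card_range, nsmul_eq_mul]
      push_cast
      rw [← mul_add, abs_mul, abs_of_pos hN0]
    have h4 : ((2 : ℝ) ^ L * |x + m|) ^ p ≤ (∑ r ∈ range (2 ^ L), |x + b r|) ^ p :=
      Real.rpow_le_rpow (by positivity) h3 (by linarith)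
    have h5 := h4.trans h2
    rw [Real.mul_rpow hN0.le (abs_nonneg _)] at h5
    have h6 : ((2 : ℝ) ^ L) ^ p = ((2 : ℝ) ^ L) ^ (p - 1) * 2 ^ L := by
      rw [Real.rpow_sub hN0, Real.rpow_one]; field_simp
    rw [h6, mul_assoc] at h5
    exact le_of_mul_le_mul_left h5 (by positivity)
  have h2 : (t * L) * (2 ^ L * |m| ^ p) ≤ W p t L b := by
    refine le_trans (le_of_eq ?_) (W_lower p t hp ht L b)
    rw [hsum, abs_mul, abs_of_pos hN0, Real.mul_rpow hN0.le (abs_nonneg _)]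
    have h3 : (2 : ℝ) ^ ((L : ℝ) * (1 - p)) * ((2 : ℝ) ^ L) ^ p = 2 ^ L := by
      rw [← Real.rpow_natCast 2 L, ← Real.rpow_mul (by norm_num), ← Real.rpow_add (by norm_num)]
      congr 1; ring
    calc t * L * (2 ^ L * |m| ^ p) = t * (L * (((2 : ℝ) ^ ((L : ℝ) * (1 - p)) * ((2 : ℝ) ^ L) ^ p) * |m| ^ p)) := by
          rw [h3]; ring
      _ = _ := by ring
  have h3 : |x + m| ^ p + (t * L) * |m| ^ p ≤ G0 p t L x b := by
    unfold G0
    rw [← div_eq_inv_mul, le_div_iff₀ hN0]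
    calc (|x + m| ^ p + t * L * |m| ^ p) * 2 ^ L
        = 2 ^ L * |x + m| ^ p + t * L * (2 ^ L * |m| ^ p) := by ring
      _ ≤ _ := add_le_add h1 h2
  have h4 : |x| ^ p ≤ l ^ (1 - p) * |x + m| ^ p + (1 - l) ^ (1 - p) * |m| ^ p := by
    have h5 := abs_conv2 hp hl0 hl1 (x + m) (-m)
    rw [abs_neg] at h5
    convert h5 using 2
    ring_nf
  have hl : (1 : ℝ) ≤ l ^ (1 - p) :=
    Real.one_le_rpow_of_pos_of_le_one_of_nonpos hl0 hl1.le (by linarith)
  have hm0 : 0 ≤ |m| ^ p := by positivity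
  calc |x| ^ p ≤ l ^ (1 - p) * |x + m| ^ p + (1 - l) ^ (1 - p) * |m| ^ p := h4
    _ ≤ l ^ (1 - p) * |x + m| ^ p + (t * L) * |m| ^ p := by gcongr
    _ ≤ l ^ (1 - p) * |x + m| ^ p + l ^ (1 - p) * ((t * L) * |m| ^ p) := by
        have : 0 ≤ (t * L) * |m| ^ p := by positivity
        nlinarith
    _ = l ^ (1 - p) * (|x + m| ^ p + (t * L) * |m| ^ p) := by ring
    _ ≤ _ := mul_le_mul_of_nonneg_left h3 (by positivity)

lemma exists_lam (p : ℝ) (hp : 1 ≤ p) (η : ℝ) (hη : 0 < η) :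
    ∃ l : ℝ, 0 < l ∧ l < 1 ∧ l ^ (1 - p) ≤ 1 + η := by
  refine ⟨(1 + η) ^ (-(1 / p)), by positivity, ?_, ?_⟩
  · apply Real.rpow_lt_one_of_one_lt_of_neg (by linarith)
    have : 0 < 1 / p := by positivity
    linarith
  · rw [← Real.rpow_mul (by linarith)]
    calc (1 + η) ^ (-(1 / p) * (1 - p)) ≤ (1 + η) ^ (1 : ℝ) := by
          apply Real.rpow_le_rpow_of_exponent_le (by linarith)
          have hp0 : 0 < p := by linarith
          rw [show -(1 / p) * (1 - p) = 1 - 1 / p by field_simp; ring]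
          have : 0 < 1 / p := by positivity
          linarith
      _ = 1 + η := Real.rpow_one _

lemma piece_exists (p : ℝ) (hp : 1 ≤ p) (η : ℝ) (hη : 0 < η) :
    ∃ (L : ℕ) (t : ℝ), 1 ≤ L ∧ 0 ≤ t ∧ (∀ x b, |x| ^ p ≤ (1 + η) * G0 p t L x b) ∧
      (∀ b J, G0 p t L 0 (tr b J) ≤ (1 + η) * G0 p t L 0 b) := by
  rcases hp.eq_or_lt with h1 | h1
  · subst h1
    refine ⟨1, 1, le_rfl, by norm_num, ?_, ?_⟩
    · intro x b
      have h := G0_lower 1 1 le_rfl (by norm_num) (1 / 2) (by norm_num) (by norm_num) 1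
        (by norm_num) x b
      have h0 := G0_nonneg 1 1 (by norm_num) 1 x b
      have h3 : ((1 / 2 : ℝ)) ^ (1 - 1 : ℝ) = 1 := by norm_num
      rw [h3] at h
      nlinarith
    · intro b J
      have h0 := G0_nonneg 1 1 (by norm_num) 1 0 b
      have h2 : G0 1 1 1 0 (tr b J) ≤ G0 1 1 1 0 b := by
        unfold G0
        apply mul_le_mul_of_nonneg_left _ (by positivity)
        simp only [W, pow_one, zero_add, Finset.sum_range_succ, Finset.sum_range_zero,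
          Real.rpow_one]
        norm_num
        rcases Nat.lt_or_ge J 1 with hJ | hJ
        · have : J = 0 := by omega
          subst this
          simp only [tr_zero]
          simp only [abs_zero, add_zero]
          positivity
        · rcases Nat.lt_or_ge J 2 with hJ2 | hJ2
          · have : J = 1 := by omega
            subst this
            simp only [tr]
            norm_num
            have h5 := abs_sub_abs_le_abs_sub (b 0) (-b 1)
            rw [abs_neg, sub_neg_eq_add] at h5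
            linarith
          · simp only [tr]
            rw [if_pos (by omega), if_pos (by omega)]
      nlinarith
  · obtain ⟨l, hl0, hl1, hl⟩ := exists_lam p hp η hη
    set ρ : ℝ := (3 / 2 : ℝ) ^ (1 - p) with hρ
    set κ : ℝ := ρ / (1 - ρ) with hκ
    set C : ℝ := (1 + κ) * 2 ^ (p - 1) with hC
    have hρ0 : 0 < ρ := by rw [hρ]; positivity
    have hρ1 : ρ < 1 := by
      rw [hρ]
      exact Real.rpow_lt_one_of_one_lt_of_neg (by norm_num) (by linarith)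
    have h1ρ : 0 < 1 - ρ := by linarith
    have hκ0 : 0 ≤ κ := by rw [hκ]; positivity
    have hC0 : 0 < C := by rw [hC]; positivity
    set t : ℝ := η / C with ht
    have ht0 : 0 < t := by positivity
    obtain ⟨L, hL⟩ := exists_nat_ge ((1 - l) ^ (1 - p) / t)
    refine ⟨L + 1, t, by omega, ht0.le, ?_, ?_⟩
    · intro x b
      have h := G0_lower p t hp ht0.le l hl0 hl1 (L + 1) (by
        rw [div_le_iff₀ ht0] at hL
        push_cast
        nlinarith) x b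
      exact h.trans (mul_le_mul_of_nonneg_right hl (G0_nonneg p t ht0.le _ _ _))
    · intro b J
      obtain ⟨T, hT1, hT2⟩ := W_trunc p t h1 ht0.le ρ κ C hρ hκ hC (L + 1) b J
      have hE : 0 ≤ κ * ((2 : ℝ) ^ (((L + 1 : ℕ) : ℝ) * (1 - p))
          * (∑ r ∈ range (2 ^ (L + 1)), |b r|) ^ p) := by
        have : 0 ≤ ∑ r ∈ range (2 ^ (L + 1)), |b r| := Finset.sum_nonneg (fun r _ => abs_nonneg _)
        positivity
      have hT3 : T ≤ C * ∑ r ∈ range (2 ^ (L + 1)), |b r| ^ p := by linarith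
      have hT4 : t * T ≤ η * ∑ r ∈ range (2 ^ (L + 1)), |b r| ^ p := by
        calc t * T ≤ t * (C * ∑ r ∈ range (2 ^ (L + 1)), |b r| ^ p) :=
              mul_le_mul_of_nonneg_left hT3 ht0.le
          _ = _ := by rw [ht]; field_simp
      have hW := W_nonneg p t ht0.le (L + 1) b
      unfold G0
      rw [mul_left_comm]
      apply mul_le_mul_of_nonneg_left _ (by positivity)
      simp only [zero_add]
      have h3 : ∑ r ∈ range (2 ^ (L + 1)), |tr b J r| ^ p ≤ ∑ r ∈ range (2 ^ (L + 1)), |b r| ^ p :=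
        Finset.sum_le_sum (fun r _ => Real.rpow_le_rpow (abs_nonneg _) (abs_tr_le b J r) (by linarith))
      nlinarith

/-- functional of one group, made of `n` pieces -/
noncomputable def G (p t : ℝ) (L n : ℕ) (x : ℝ) (b : ℕ → ℝ) : ℝ :=
  (n : ℝ)⁻¹ * ∑ q ∈ range n, G0 p t L x (fun r => b (q * 2 ^ L + r))

lemma G0_const (p t : ℝ) (hp : 1 ≤ p) (L : ℕ) (x : ℝ) : G0 p t L x (fun _ => 0) = |x| ^ p := by
  unfold G0
  rw [W_zero p t hp]
  simp only [add_zero, Finset.sum_const, Finset.card_range, nsmul_eq_mul]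
  push_cast
  field_simp

lemma G0_trunc (p t : ℝ) (hp : 1 ≤ p) (ht : 0 ≤ t) (L : ℕ) (η : ℝ) (hη : 0 < η)
    (h2 : ∀ b J, G0 p t L 0 (tr b J) ≤ (1 + η) * G0 p t L 0 b)
    (l : ℝ) (hl0 : 0 < l) (hl1 : l < 1) (x : ℝ) (b : ℕ → ℝ) (J : ℕ) :
    G0 p t L x (tr b J) ≤ l ^ (1 - p) * ((1 + η) * (l ^ (1 - p) * G0 p t L x b))
      + (l ^ (1 - p) * ((1 + η) * (1 - l) ^ (1 - p)) + (1 - l) ^ (1 - p)) * |x| ^ p := by
  have hN0 : (0 : ℝ) < (2 : ℝ) ^ L := by positivity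
  have hl : (1 : ℝ) ≤ l ^ (1 - p) :=
    Real.one_le_rpow_of_pos_of_le_one_of_nonpos hl0 hl1.le (by linarith)
  have h1l : 0 < 1 - l := by linarith
  -- general comparison
  have hcmp : ∀ (x y : ℝ) (c : ℕ → ℝ), G0 p t L (x + y) c
      ≤ l ^ (1 - p) * G0 p t L x c + (1 - l) ^ (1 - p) * |y| ^ p := by
    intro x y c
    unfold G0
    have hW := W_nonneg p t ht L c
    have h3 : ∑ r ∈ range (2 ^ L), |x + y + c r| ^ p
        ≤ l ^ (1 - p) * ∑ r ∈ range (2 ^ L), |x + c r| ^ p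
          + (1 - l) ^ (1 - p) * (2 ^ L * |y| ^ p) := by
      have h4 : ∀ r ∈ range (2 ^ L), |x + y + c r| ^ p
          ≤ l ^ (1 - p) * |x + c r| ^ p + (1 - l) ^ (1 - p) * |y| ^ p := by
        intro r _
        have := abs_conv2 hp hl0 hl1 (x + c r) y
        rwa [show x + c r + y = x + y + c r by ring] at this
      refine (Finset.sum_le_sum h4).trans (le_of_eq ?_)
      rw [Finset.sum_add_distrib, ← Finset.mul_sum, Finset.sum_const, Finset.card_range,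
        nsmul_eq_mul]
      push_cast; ring
    rw [← div_eq_inv_mul, ← div_eq_inv_mul, div_le_iff₀ hN0]
    have h5 : (l ^ (1 - p) * ((∑ r ∈ range (2 ^ L), |x + c r| ^ p + W p t L c) / 2 ^ L)
        + (1 - l) ^ (1 - p) * |y| ^ p) * 2 ^ L
        = l ^ (1 - p) * ∑ r ∈ range (2 ^ L), |x + c r| ^ p
          + (1 - l) ^ (1 - p) * (2 ^ L * |y| ^ p) + l ^ (1 - p) * W p t L c := by
      field_simp
      ring
    rw [h5]
    nlinarith
  have e1 := hcmp 0 x (tr b J)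
  rw [zero_add] at e1
  have e2 := hcmp x (-x) b
  rw [add_neg_cancel, abs_neg] at e2
  have e3 := h2 b J
  have hx : 0 ≤ |x| ^ p := by positivity
  have hl' : (0 : ℝ) ≤ l ^ (1 - p) := by positivity
  calc G0 p t L x (tr b J) ≤ l ^ (1 - p) * G0 p t L 0 (tr b J) + (1 - l) ^ (1 - p) * |x| ^ p := e1
    _ ≤ l ^ (1 - p) * ((1 + η) * G0 p t L 0 b) + (1 - l) ^ (1 - p) * |x| ^ p := by
        have := mul_le_mul_of_nonneg_left e3 hl'
        linarith
    _ ≤ l ^ (1 - p) * ((1 + η) * (l ^ (1 - p) * G0 p t L x b + (1 - l) ^ (1 - p) * |x| ^ p))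
        + (1 - l) ^ (1 - p) * |x| ^ p := by
        have h6 : 0 ≤ l ^ (1 - p) * (1 + η) := by positivity
        have := mul_le_mul_of_nonneg_left e2 h6
        linarith
    _ = _ := by ring

/-- The finite dimensional heart of the construction. -/
theorem core (p : ℝ) (hp : 1 ≤ p) (ε : ℝ) (hε : 0 < ε) :
    ∃ (n L : ℕ) (t : ℝ), 1 ≤ n ∧ 1 ≤ L ∧ 0 ≤ t ∧
      ∀ x b J, G p t L n x (tr b J) ≤ (1 + ε) * G p t L n x b := by
  -- parameters
  obtain ⟨η, hη0, hη1⟩ : ∃ η : ℝ, 0 < η ∧ (1 + η) * ((1 + η) * (1 + η)) ≤ 1 + ε / 2 := by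
    refine ⟨min 1 (ε / 14), by positivity, ?_⟩
    set η := min 1 (ε / 14) with hη
    have h1 : η ≤ 1 := min_le_left _ _
    have h2 : η ≤ ε / 14 := min_le_right _ _
    have h3 : 0 < η := by positivity
    have h4 : η * η ≤ η := by nlinarith
    have h5 : η * η * η ≤ η := by nlinarith
    nlinarith
  obtain ⟨l, hl0, hl1, hl⟩ := exists_lam p hp η hη0
  obtain ⟨L, t, hL, ht, hP1, hP2⟩ := piece_exists p hp η hη0
  have h1l : 0 < 1 - l := by linarith
  have hl' : (0 : ℝ) ≤ l ^ (1 - p) := by positivity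
  set K : ℝ := l ^ (1 - p) * ((1 + η) * (1 - l) ^ (1 - p)) + (1 - l) ^ (1 - p) with hK
  have hK0 : 0 < K := by rw [hK]; positivity
  obtain ⟨n, hn⟩ := exists_nat_ge (K * (1 + η) / (ε / 2))
  have hη2 : 1 + η ≤ 1 + ε / 2 := by nlinarith [mul_pos hη0 hη0]
  have hn0 : (0 : ℝ) < n := lt_of_lt_of_le (by positivity) hn
  have hn1 : 1 ≤ n := by exact_mod_cast hn0
  refine ⟨n, L, t, hn1, hL, ht, ?_⟩
  intro x b J
  set g : ℕ → ℝ := fun q => G0 p t L x (fun r => b (q * 2 ^ L + r)) with hg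
  have hg0 : ∀ q, 0 ≤ g q := fun q => G0_nonneg p t ht L x _
  have hterm : ∀ q ∈ range n, G0 p t L x (fun r => tr b J (q * 2 ^ L + r))
      ≤ (1 + ε / 2) * g q + (if q = J / 2 ^ L then K * |x| ^ p else 0) := by
    intro q _
    rw [tr_shift b J (q * 2 ^ L)]
    have hx : 0 ≤ |x| ^ p := by positivity
    have hif : 0 ≤ (if q = J / 2 ^ L then K * |x| ^ p else 0) := by
      split_ifs <;> positivity
    rcases Nat.lt_trichotomy q (J / 2 ^ L) with h | h | h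
    · -- full piece
      have h3 : (q + 1) * 2 ^ L ≤ J := by
        have := Nat.div_mul_le_self J (2 ^ L)
        calc (q + 1) * 2 ^ L ≤ J / 2 ^ L * 2 ^ L := Nat.mul_le_mul_right _ h
          _ ≤ J := this
      have h4 : G0 p t L x (tr (fun r => b (q * 2 ^ L + r)) (J - q * 2 ^ L)) = g q := by
        have h5 : ∀ r < 2 ^ L, tr (fun r => b (q * 2 ^ L + r)) (J - q * 2 ^ L) r
            = b (q * 2 ^ L + r) := by
          intro r hr
          unfold tr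
          rw [if_pos]
          have : (q + 1) * 2 ^ L = q * 2 ^ L + 2 ^ L := by ring
          omega
        simp only [hg, G0]
        rw [W_congr p t L _ _ h5, Finset.sum_congr rfl (fun r hr => by
          rw [h5 r (Finset.mem_range.mp hr)])]
      rw [h4]
      have := hg0 q
      nlinarith
    · rw [if_pos h]
      have h3 := G0_trunc p t hp ht L η hη0 hP2 l hl0 hl1 x (fun r => b (q * 2 ^ L + r))
        (J - q * 2 ^ L)
      refine h3.trans ?_
      rw [← hK]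
      have h4 : l ^ (1 - p) * ((1 + η) * (l ^ (1 - p) * g q)) ≤ (1 + ε / 2) * g q := by
        calc l ^ (1 - p) * ((1 + η) * (l ^ (1 - p) * g q))
            ≤ (1 + η) * ((1 + η) * ((1 + η) * g q)) := by
              have := hg0 q
              gcongr
          _ = ((1 + η) * ((1 + η) * (1 + η))) * g q := by ring
          _ ≤ _ := mul_le_mul_of_nonneg_right hη1 (hg0 q)
      linarith
    · have h3 : J ≤ q * 2 ^ L := by
        have h5 : J / 2 ^ L < q := h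
        rw [Nat.div_lt_iff_lt_mul (by positivity)] at h5
        exact h5.le
      rw [show J - q * 2 ^ L = 0 by omega, tr_zero, G0_const p t hp]
      have h4 := hP1 x (fun r => b (q * 2 ^ L + r))
      have := hg0 q
      have h6 : (1 + η) * g q ≤ (1 + ε / 2) * g q := mul_le_mul_of_nonneg_right hη2 this
      linarith
  have hsumif : ∑ q ∈ range n, (if q = J / 2 ^ L then K * |x| ^ p else 0) ≤ K * |x| ^ p := by
    rw [Finset.sum_ite_eq']
    split_ifs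
    · exact le_rfl
    · positivity
  have havg : |x| ^ p ≤ (1 + η) * ((n : ℝ)⁻¹ * ∑ q ∈ range n, g q) := by
    have h3 : ∑ q ∈ range n, |x| ^ p ≤ ∑ q ∈ range n, (1 + η) * g q :=
      Finset.sum_le_sum (fun q _ => hP1 x _)
    rw [Finset.sum_const, Finset.card_range, nsmul_eq_mul, ← Finset.mul_sum] at h3
    rw [mul_left_comm, ← div_eq_inv_mul, le_div_iff₀ hn0]
    linarith
  have hS0 : 0 ≤ ∑ q ∈ range n, g q := Finset.sum_nonneg (fun q _ => hg0 q)
  have hfin : K * |x| ^ p ≤ (ε / 2) * ∑ q ∈ range n, g q := by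
    have h3 : K * (1 + η) ≤ (ε / 2) * n := by
      rw [div_le_iff₀ (by positivity)] at hn
      linarith
    calc K * |x| ^ p ≤ K * ((1 + η) * ((n : ℝ)⁻¹ * ∑ q ∈ range n, g q)) :=
          mul_le_mul_of_nonneg_left havg hK0.le
      _ = (K * (1 + η)) * ((n : ℝ)⁻¹ * ∑ q ∈ range n, g q) := by ring
      _ ≤ ((ε / 2) * n) * ((n : ℝ)⁻¹ * ∑ q ∈ range n, g q) :=
          mul_le_mul_of_nonneg_right h3 (by positivity)
      _ = _ := by field_simp
  unfold G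
  rw [mul_left_comm]
  apply mul_le_mul_of_nonneg_left _ (by positivity)
  calc ∑ q ∈ range n, G0 p t L x (fun r => tr b J (q * 2 ^ L + r))
      ≤ ∑ q ∈ range n, ((1 + ε / 2) * g q + (if q = J / 2 ^ L then K * |x| ^ p else 0)) :=
        Finset.sum_le_sum hterm
    _ = (1 + ε / 2) * ∑ q ∈ range n, g q
        + ∑ q ∈ range n, (if q = J / 2 ^ L then K * |x| ^ p else 0) := by
        rw [Finset.sum_add_distrib, ← Finset.mul_sum]
    _ ≤ (1 + ε / 2) * ∑ q ∈ range n, g q + (ε / 2) * ∑ q ∈ range n, g q := by linarith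
    _ = (1 + ε) * ∑ q ∈ range n, g q := by ring

end Pool.Agent.Helper35.NonnegBasis
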