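import Mathlib
import Pool.Agent.Helper35.NonnegBasis.Core

set_option autoImplicit false

open Finset

namespace Pool.Agent.Helper35.NonnegBasis

lemma sum_range_mul' {M : Type*} [AddCommMonoid M] (A B : ℕ) (h : ℕ → M) :
    ∑ r ∈ range (A * B), h r = ∑ a ∈ range A, ∑ r ∈ range B, h (a * B + r) := by
  induction A with
  | zero => simp
  | succ A ih =>
    rw [Finset.sum_range_succ, ← ih, Nat.succ_mul, Finset.sum_range_add]

lemma W_double (p t : ℝ) (L : ℕ) : ∀ (A : ℕ) (b : ℕ → ℝ),
    ∑ a ∈ range A, W p t L (fun r => b (a * 2 ^ L + r)) =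
      ∑ l ∈ range L, ∑ c ∈ range (A * 2 ^ L / 2 ^ (l + 1)),
        t * ((2 : ℝ) ^ (((l + 1 : ℕ) : ℝ) * (1 - p)) *
          |∑ r ∈ range (2 ^ (l + 1)), b (c * 2 ^ (l + 1) + r)| ^ p) := by
  induction L with
  | zero => intro A b; simp [W]
  | succ L ih =>
    intro A b
    rw [Finset.sum_range_succ, Nat.mul_div_cancel _ (by positivity)]
    have h1 : A * 2 ^ (L + 1) = (A * 2) * 2 ^ L := by ring
    rw [h1, ← ih (A * 2) b, sum_range_mul']
    simp only [W]
    rw [← Finset.sum_add_distrib]
    refine Finset.sum_congr rfl (fun a _ => ?_)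
    rw [Finset.sum_range_succ, Finset.sum_range_one]
    congr 2
    · congr 1
      funext r
      congr 1
      ring
    · congr 1
      funext r
      congr 1
      ring

end Pool.Agent.Helper35.NonnegBasis
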