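import Mathlib

set_option autoImplicit false

open MeasureTheory Finset
open scoped ENNReal

namespace Pool.Agent.Helper35.NonnegBasis

lemma coeFn_sum_ind {α ι : Type*} [MeasurableSpace α] {μ : Measure α} (p : ℝ≥0∞)
    (s : Finset ι) (A : ι → Set α) (hA : ∀ i, MeasurableSet (A i)) (hμ : ∀ i, μ (A i) ≠ ∞)
    (c : ι → ℝ) :
    ((∑ i ∈ s, c i • indicatorConstLp p (hA i) (hμ i) (1 : ℝ) : Lp ℝ p μ) : α → ℝ)
      =ᵐ[μ] fun x => ∑ i ∈ s, (A i).indicator (fun _ => c i) x := by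
  classical
  induction s using Finset.induction_on with
  | empty => 
    simp only [Finset.sum_empty]
    exact Lp.coeFn_zero _ _ _
  | insert a s ha ih =>
    rw [Finset.sum_insert ha]
    filter_upwards [Lp.coeFn_add (c a • indicatorConstLp p (hA a) (hμ a) (1 : ℝ) : Lp ℝ p μ)
      (∑ i ∈ s, c i • indicatorConstLp p (hA i) (hμ i) (1 : ℝ)), ih,
      Lp.coeFn_smul (c a) (indicatorConstLp p (hA a) (hμ a) (1 : ℝ) : Lp ℝ p μ),
      indicatorConstLp_coeFn (p := p) (hs := hA a) (hμs := hμ a) (c := (1 : ℝ))] with x h1 h2 h3 h4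
    rw [h1, Pi.add_apply, h2, h3, Pi.smul_apply, h4, Finset.sum_insert ha]
    congr 1
    by_cases hx : x ∈ A a <;> simp [hx]

lemma norm_sum_pow {α ι : Type*} [MeasurableSpace α] {μ : Measure α} (p : ℝ≥0∞)
    (hp0 : p ≠ 0) (hp : p ≠ ∞)
    (s : Finset ι) (A : ι → Set α) (hA : ∀ i, MeasurableSet (A i)) (hμ : ∀ i, μ (A i) ≠ ∞)
    (hd : ∀ i ∈ s, ∀ j ∈ s, i ≠ j → Disjoint (A i) (A j)) (c : ι → ℝ) :
    ‖(∑ i ∈ s, c i • indicatorConstLp p (hA i) (hμ i) (1 : ℝ) : Lp ℝ p μ)‖ ^ p.toReal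
      = ∑ i ∈ s, |c i| ^ p.toReal * (μ (A i)).toReal := by
  classical
  have hpp : 0 < p.toReal := ENNReal.toReal_pos hp0 hp
  rw [Lp.norm_def, eLpNorm_congr_ae (coeFn_sum_ind p s A hA hμ c),
    eLpNorm_eq_lintegral_rpow_enorm_toReal hp0 hp, ← ENNReal.toReal_rpow,
    ← Real.rpow_mul ENNReal.toReal_nonneg, one_div, inv_mul_cancel₀ hpp.ne', Real.rpow_one]
  have hpt : ∀ x, ‖∑ i ∈ s, (A i).indicator (fun _ => c i) x‖ₑ ^ p.toReal
      = ∑ i ∈ s, (A i).indicator (fun _ => ‖c i‖ₑ ^ p.toReal) x := by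
    intro x
    by_cases hx : ∃ i ∈ s, x ∈ A i
    · obtain ⟨i, hi, hxi⟩ := hx
      have hne : ∀ j ∈ s, j ≠ i → x ∉ A j := fun j hj hji hxj =>
        Set.disjoint_left.mp (hd j hj i hi hji) hxj hxi
      rw [Finset.sum_eq_single_of_mem i hi (fun j hj hji => by simp [hne j hj hji]),
        Finset.sum_eq_single_of_mem i hi (fun j hj hji => by simp [hne j hj hji])]
      simp [hxi]
    · push Not at hx
      rw [Finset.sum_eq_zero (fun j hj => by simp [hx j hj]),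
        Finset.sum_eq_zero (fun j hj => by simp [hx j hj])]
      simp [hpp]
  simp_rw [hpt]
  rw [lintegral_finsetSum _ (fun i _ => measurable_const.indicator (hA i))]
  simp_rw [lintegral_indicator_const (hA _)]
  rw [ENNReal.toReal_sum]
  · refine Finset.sum_congr rfl (fun i _ => ?_)
    rw [ENNReal.toReal_mul, ← ENNReal.toReal_rpow, toReal_enorm, Real.norm_eq_abs]
  · intro i _
    exact ENNReal.mul_ne_top (ENNReal.rpow_ne_top_of_nonneg hpp.le (by simp)) (hμ i)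

/-- indicator function of `[a, b)` as an element of `L_p(ℝ)` -/
noncomputable def ind (p : ℝ≥0∞) (a b : ℝ) : Lp ℝ p (volume : Measure ℝ) :=
  indicatorConstLp p (measurableSet_Ico (a := a) (b := b)) (by simp) (1 : ℝ)

lemma norm_sum_ind_pow {ι : Type*} (p : ℝ≥0∞) (hp0 : p ≠ 0) (hp : p ≠ ∞)
    (s : Finset ι) (a b : ι → ℝ) (hab : ∀ i ∈ s, a i ≤ b i)
    (hd : ∀ i ∈ s, ∀ j ∈ s, i ≠ j → Disjoint (Set.Ico (a i) (b i)) (Set.Ico (a j) (b j)))
    (c : ι → ℝ) :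
    ‖∑ i ∈ s, c i • ind p (a i) (b i)‖ ^ p.toReal
      = ∑ i ∈ s, |c i| ^ p.toReal * (b i - a i) := by
  unfold ind
  rw [norm_sum_pow p hp0 hp s (fun i => Set.Ico (a i) (b i)) (fun i => measurableSet_Ico)
    (fun i => by simp) hd c]
  refine Finset.sum_congr rfl (fun i hi => ?_)
  rw [Real.volume_Ico, ENNReal.toReal_ofReal (by linarith [hab i hi])]

lemma ind_nonneg (p : ℝ≥0∞) (a b : ℝ) : 0 ≤ ind p a b := by
  rw [← Lp.coeFn_nonneg]
  filter_upwards [indicatorConstLp_coeFn (p := p) (μ := (volume : Measure ℝ))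
    (hs := measurableSet_Ico (a := a) (b := b)) (hμs := by simp) (c := (1 : ℝ))] with x hx
  unfold ind
  rw [hx]
  exact Set.indicator_nonneg (fun _ _ => zero_le_one) x

lemma smul_nonneg_Lp (p : ℝ≥0∞) (c : ℝ) (hc : 0 ≤ c) (g : Lp ℝ p (volume : Measure ℝ))
    (hg : 0 ≤ g) : 0 ≤ c • g := by
  rw [← Lp.coeFn_nonneg] at hg ⊢
  filter_upwards [Lp.coeFn_smul c g, hg] with x hx h
  rw [hx]
  exact mul_nonneg hc h

end Pool.Agent.Helper35.NonnegBasis
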