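import Mathlib
import Pool.Agent.Helper35.NonnegBasis.Norm
import Pool.Agent.Helper35.NonnegBasis.Blocks

set_option autoImplicit false

open MeasureTheory Finset
open scoped ENNReal

namespace Pool.Agent.Helper35.NonnegBasis

/-- parameters of the construction -/
structure Par where
  /-- number of pieces -/
  n : ℕ → ℕ
  /-- depth of a piece -/
  L : ℕ → ℕ
  /-- weights -/
  t : ℕ → ℝ
  hn : ∀ k, 1 ≤ n k
  hL : ∀ k, 1 ≤ L k
  ht : ∀ k, 0 ≤ t k

namespace Par

variable (P : Par) (p : ℝ≥0∞)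

/-- refinement number -/
def R (k : ℕ) : ℕ := P.n k * 2 ^ P.L k

/-- number of atoms at level `k` -/
def S : ℕ → ℕ
  | 0 => 1
  | (k + 1) => S k * P.R k

/-- offsets of the groups -/
def O : ℕ → ℕ
  | 0 => 1
  | (k + 1) => O k + P.S (k + 1)

lemma R_pos (k : ℕ) : 0 < P.R k := by
  have := P.hn k
  unfold R
  positivity

lemma S_pos (k : ℕ) : 0 < P.S k := by
  induction k with
  | zero => simp [S]
  | succ k ih => simp only [S]; exact Nat.mul_pos ih (P.R_pos k)

lemma O_lt (k : ℕ) : P.O k < P.O (k + 1) := by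
  simp only [O]
  have := P.S_pos (k + 1)
  omega

lemma O_strictMono : StrictMono P.O := strictMono_nat_of_lt_succ P.O_lt

lemma exists_lt_O (i : ℕ) : ∃ k, i < P.O k :=
  ⟨i + 1, lt_of_lt_of_le (Nat.lt_succ_self i) (P.O_strictMono.id_le (i + 1))⟩

/-- atoms -/
noncomputable def E (k r : ℕ) : Lp ℝ p (volume : Measure ℝ) :=
  ind p ((r : ℝ) / P.S k) (((r : ℝ) + 1) / P.S k)

/-- code of an extra atom -/
def code (j l c : ℕ) : ℕ := Nat.pair j (Nat.pair l c)

/-- extra atoms -/
noncomputable def X (p : ℝ≥0∞) (m : ℕ) : Lp ℝ p (volume : Measure ℝ) :=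
  ind p ((m : ℝ) + 2) ((m : ℝ) + 3)

/-- coefficients of the extra atoms -/
noncomputable def cf (q : ℝ) (j l : ℕ) : ℝ :=
  (P.t j * (2 : ℝ) ^ (((l + 1 : ℕ) : ℝ) * (1 - q)) / P.S (j + 1)) ^ (1 / q)

lemma cf_nonneg (q : ℝ) (j l : ℕ) : 0 ≤ P.cf q j l := by
  unfold cf
  have := P.ht j
  positivity

/-- members of the groups -/
noncomputable def g (k r : ℕ) : Lp ℝ p (volume : Measure ℝ) :=
  P.E p (k + 1) r + ∑ l ∈ range (P.L k), P.cf p.toReal k l • X p (code k l (r / 2 ^ (l + 1)))

/-- the sequence -/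
noncomputable def f (i : ℕ) : Lp ℝ p (volume : Measure ℝ) :=
  if i < 1 then P.E p 0 0 else
    P.g p (Nat.find (P.exists_lt_O i) - 1) (i - P.O (Nat.find (P.exists_lt_O i) - 1))

lemma f_zero : P.f p 0 = P.E p 0 0 := by simp [f]

lemma f_group (k r : ℕ) (hr : r < P.S (k + 1)) : P.f p (P.O k + r) = P.g p k r := by
  have h1 : Nat.find (P.exists_lt_O (P.O k + r)) = k + 1 := by
    rw [Nat.find_eq_iff]
    refine ⟨by simp only [O]; omega, fun m hm => ?_⟩
    have : P.O m ≤ P.O k := P.O_strictMono.monotone (by omega)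
    omega
  have h2 : 1 ≤ P.O k := by
    have : P.O 0 ≤ P.O k := P.O_strictMono.monotone (Nat.zero_le k)
    simpa [O] using this
  unfold f
  rw [if_neg (by omega), h1, Nat.add_sub_cancel, Nat.add_sub_cancel_left]

/-- values on the atoms of the partial sums -/
def val (a : ℕ → ℝ) : ℕ → ℕ → ℝ
  | 0, _ => a 0
  | (k + 1), r => val a k (r / P.R k) + a (P.O k + r)

lemma E_split (k a : ℕ) : P.E p k a = ∑ r ∈ range (P.R k), P.E p (k + 1) (a * P.R k + r) := by
  have hS := P.S_pos k
  have hR := P.R_pos k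
  have hS1 := P.S_pos (k + 1)
  have hSR : (P.S (k + 1) : ℝ) = P.S k * P.R k := by simp [S]
  have hS' : (0 : ℝ) < P.S k := by exact_mod_cast hS
  have hR' : (0 : ℝ) < P.R k := by exact_mod_cast hR
  have hgen : ∀ m : ℕ, ind p ((a : ℝ) / P.S k) (((a * P.R k + m : ℕ) : ℝ) / P.S (k + 1))
      = ∑ r ∈ range m, P.E p (k + 1) (a * P.R k + r) := by
    intro m
    induction m with
    | zero =>
      simp only [Finset.range_zero, Finset.sum_empty, add_zero]
      have : ((a * P.R k : ℕ) : ℝ) / P.S (k + 1) = (a : ℝ) / P.S k := by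
        rw [hSR]; push_cast; field_simp
      rw [this]
      unfold ind
      have h0 : Set.Ico ((a : ℝ) / P.S k) ((a : ℝ) / P.S k) = ∅ := Set.Ico_self _
      apply Lp.ext
      filter_upwards [indicatorConstLp_coeFn (p := p) (μ := (volume : Measure ℝ))
        (hs := measurableSet_Ico (a := (a : ℝ) / P.S k) (b := (a : ℝ) / P.S k))
        (hμs := by simp) (c := (1 : ℝ)), Lp.coeFn_zero ℝ p (volume : Measure ℝ)] with x h1 h2
      rw [h1, h2, h0]
      simp
    | succ m ih =>
      rw [Finset.sum_range_succ, ← ih]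
      have hle1 : (a : ℝ) / P.S k ≤ ((a * P.R k + m : ℕ) : ℝ) / P.S (k + 1) := by
        rw [hSR, div_le_div_iff₀ hS' (by positivity)]
        push_cast
        have : (0 : ℝ) ≤ m := Nat.cast_nonneg m
        nlinarith [mul_nonneg this hS'.le]
      have hle2 : ((a * P.R k + m : ℕ) : ℝ) / P.S (k + 1)
          ≤ ((a * P.R k + (m + 1) : ℕ) : ℝ) / P.S (k + 1) := by
        apply div_le_div_of_nonneg_right _ (by positivity)
        push_cast; linarith
      have hun : Set.Ico ((a : ℝ) / P.S k) (((a * P.R k + (m + 1) : ℕ) : ℝ) / P.S (k + 1))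
          = Set.Ico ((a : ℝ) / P.S k) (((a * P.R k + m : ℕ) : ℝ) / P.S (k + 1)) ∪
            Set.Ico (((a * P.R k + m : ℕ) : ℝ) / P.S (k + 1))
              (((a * P.R k + (m + 1) : ℕ) : ℝ) / P.S (k + 1)) := by
        rw [Set.Ico_union_Ico_eq_Ico hle1 hle2]
      have hdis : Disjoint (Set.Ico ((a : ℝ) / P.S k) (((a * P.R k + m : ℕ) : ℝ) / P.S (k + 1)))
          (Set.Ico (((a * P.R k + m : ℕ) : ℝ) / P.S (k + 1))
              (((a * P.R k + (m + 1) : ℕ) : ℝ) / P.S (k + 1))) := by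
        rw [Set.Ico_disjoint_Ico]
        rw [min_eq_left hle2, max_eq_right hle1]
      have key := indicatorConstLp_disjoint_union (p := p) (μ := (volume : Measure ℝ))
        (measurableSet_Ico (a := (a : ℝ) / P.S k) (b := ((a * P.R k + m : ℕ) : ℝ) / P.S (k + 1)))
        (measurableSet_Ico (a := ((a * P.R k + m : ℕ) : ℝ) / P.S (k + 1))
          (b := ((a * P.R k + (m + 1) : ℕ) : ℝ) / P.S (k + 1)))
        (by simp) (by simp) hdis (1 : ℝ)
      have e1 : ind p ((a : ℝ) / P.S k) (((a * P.R k + (m + 1) : ℕ) : ℝ) / P.S (k + 1))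
          = ind p ((a : ℝ) / P.S k) (((a * P.R k + m : ℕ) : ℝ) / P.S (k + 1))
            + ind p (((a * P.R k + m : ℕ) : ℝ) / P.S (k + 1))
              (((a * P.R k + (m + 1) : ℕ) : ℝ) / P.S (k + 1)) := by
        unfold ind
        rw [← key]
        congr 1
      rw [e1]
      unfold E
      congr 3
      push_cast; ring
  rw [← hgen (P.R k)]
  unfold E
  congr 1
  rw [hSR]
  push_cast
  field_simp

/-- coefficients of the extra atoms in the partial sums -/
noncomputable def ec (q : ℝ) (a : ℕ → ℝ) (j l c : ℕ) : ℝ :=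
  P.cf q j l * ∑ r ∈ range (2 ^ (l + 1)), a (P.O j + (c * 2 ^ (l + 1) + r))

lemma pow_dvd_S (k l : ℕ) (hl : l < P.L k) : 2 ^ (l + 1) ∣ P.S (k + 1) := by
  have h1 : 2 ^ (l + 1) ∣ 2 ^ P.L k := pow_dvd_pow 2 hl
  simp only [S, R]
  exact dvd_mul_of_dvd_right (dvd_mul_of_dvd_right h1 _) _

lemma expand_group (a : ℕ → ℝ) (k : ℕ) :
    ∑ r ∈ range (P.S (k + 1)), a (P.O k + r) • P.g p k r
      = ∑ r ∈ range (P.S (k + 1)), a (P.O k + r) • P.E p (k + 1) r
        + ∑ l ∈ range (P.L k), ∑ c ∈ range (P.S (k + 1) / 2 ^ (l + 1)),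
            P.ec p.toReal a k l c • X p (code k l c) := by
  unfold g
  simp only [smul_add, Finset.sum_add_distrib]
  congr 1
  simp only [Finset.smul_sum]
  rw [Finset.sum_comm]
  refine Finset.sum_congr rfl (fun l hl => ?_)
  have hl' := Finset.mem_range.mp hl
  obtain ⟨A, hA⟩ := P.pow_dvd_S k l hl'
  have hA' : P.S (k + 1) = A * 2 ^ (l + 1) := by rw [hA]; ring
  rw [hA', Nat.mul_div_cancel _ (by positivity), sum_range_mul']
  refine Finset.sum_congr rfl (fun c _ => ?_)
  unfold ec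
  rw [mul_comm (P.cf p.toReal k l), Finset.sum_mul, Finset.sum_smul]
  refine Finset.sum_congr rfl (fun r hr => ?_)
  have hr' := Finset.mem_range.mp hr
  have : (c * 2 ^ (l + 1) + r) / 2 ^ (l + 1) = c := by
    rw [Nat.add_comm, Nat.add_mul_div_right _ _ (by positivity), Nat.div_eq_of_lt hr', Nat.zero_add]
  rw [this, smul_smul]

lemma div_aux (a r R : ℕ) (hr : r < R) : (a * R + r) / R = a := by
  rw [Nat.add_comm, Nat.add_mul_div_right _ _ (by omega), Nat.div_eq_of_lt hr, Nat.zero_add]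

lemma refine_sum (k : ℕ) (v : ℕ → ℝ) :
    ∑ r ∈ range (P.S k), v r • P.E p k r
      = ∑ r ∈ range (P.S (k + 1)), v (r / P.R k) • P.E p (k + 1) r := by
  simp only [S]
  rw [sum_range_mul']
  refine Finset.sum_congr rfl (fun a _ => ?_)
  rw [P.E_split p k a, Finset.smul_sum]
  refine Finset.sum_congr rfl (fun r hr => ?_)
  rw [div_aux a r _ (Finset.mem_range.mp hr)]

lemma expand (a : ℕ → ℝ) (k : ℕ) :
    ∑ i ∈ range (P.O k), a i • P.f p i
      = ∑ r ∈ range (P.S k), P.val a k r • P.E p k r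
        + ∑ j ∈ range k, ∑ l ∈ range (P.L j), ∑ c ∈ range (P.S (j + 1) / 2 ^ (l + 1)),
            P.ec p.toReal a j l c • X p (code j l c) := by
  induction k with
  | zero =>
    simp [O, S, val, f_zero]
  | succ k ih =>
    have h1 : ∑ i ∈ range (P.O (k + 1)), a i • P.f p i
        = ∑ i ∈ range (P.O k), a i • P.f p i
          + ∑ r ∈ range (P.S (k + 1)), a (P.O k + r) • P.g p k r := by
      rw [show P.O (k + 1) = P.O k + P.S (k + 1) from rfl, Finset.sum_range_add]
      congr 1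
      refine Finset.sum_congr rfl (fun r hr => ?_)
      rw [P.f_group p k r (Finset.mem_range.mp hr)]
    rw [h1, ih, expand_group, refine_sum, Finset.sum_range_succ]
    simp only [val, add_smul, Finset.sum_add_distrib]
    abel

/-- contribution of the extra atoms of a group to the norm -/
noncomputable def en (q : ℝ) (a : ℕ → ℝ) (j : ℕ) : ℝ :=
  ∑ l ∈ range (P.L j), ∑ c ∈ range (P.S (j + 1) / 2 ^ (l + 1)), |P.ec q a j l c| ^ q

lemma en_nonneg (q : ℝ) (a : ℕ → ℝ) (j : ℕ) : 0 ≤ P.en q a j :=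
  Finset.sum_nonneg (fun _ _ => Finset.sum_nonneg (fun _ _ => by positivity))

lemma code_inj {j l c j' l' c' : ℕ} (h : code j l c = code j' l' c') : j = j' ∧ l = l' ∧ c = c' := by
  unfold code at h
  rw [Nat.pair_eq_pair, Nat.pair_eq_pair] at h
  exact h

lemma norm_formula (hp0 : p ≠ 0) (hp : p ≠ ∞) (a : ℕ → ℝ) (k : ℕ) :
    ‖∑ i ∈ range (P.O k), a i • P.f p i‖ ^ p.toReal
      = (∑ r ∈ range (P.S k), |P.val a k r| ^ p.toReal) / P.S k
        + ∑ j ∈ range k, P.en p.toReal a j := by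
  classical
  rw [expand]
  let s : Finset (Σ _ : ℕ, Σ _ : ℕ, ℕ) :=
    (range k).sigma (fun j => (range (P.L j)).sigma (fun l => range (P.S (j + 1) / 2 ^ (l + 1))))
  let u : ℕ ⊕ (Σ _ : ℕ, Σ _ : ℕ, ℕ) → ℝ :=
    Sum.elim (fun r => (r : ℝ) / P.S k) (fun e => ((code e.1 e.2.1 e.2.2 : ℕ) : ℝ) + 2)
  let v : ℕ ⊕ (Σ _ : ℕ, Σ _ : ℕ, ℕ) → ℝ :=
    Sum.elim (fun r => ((r : ℝ) + 1) / P.S k) (fun e => ((code e.1 e.2.1 e.2.2 : ℕ) : ℝ) + 3)
  let c : ℕ ⊕ (Σ _ : ℕ, Σ _ : ℕ, ℕ) → ℝ :=
    Sum.elim (fun r => P.val a k r) (fun e => P.ec p.toReal a e.1 e.2.1 e.2.2)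
  have hS := P.S_pos k
  have hS' : (0 : ℝ) < P.S k := by exact_mod_cast hS
  have key := norm_sum_ind_pow p hp0 hp ((range (P.S k)).disjSum s) u v ?_ ?_ c
  · rw [Finset.sum_disjSum, Finset.sum_disjSum, Finset.sum_sigma, Finset.sum_sigma] at key
    simp only [Finset.sum_sigma] at key
    refine Eq.trans ?_ (key.trans ?_)
    · rfl
    · congr 1
      · rw [Finset.sum_div]
        refine Finset.sum_congr rfl (fun r _ => ?_)
        simp only [u, v, c, Sum.elim_inl]
        field_simp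
        ring
      · refine Finset.sum_congr rfl (fun j _ => ?_)
        unfold en
        refine Finset.sum_congr rfl (fun l _ => ?_)
        refine Finset.sum_congr rfl (fun c' _ => ?_)
        simp only [u, v, c, Sum.elim_inr]
        ring
  · rintro (r | e) _
    · simp only [u, v, Sum.elim_inl]
      gcongr
      linarith
    · simp only [u, v, Sum.elim_inr]
      linarith
  · rintro (r | e) h1 (r' | e') h2 hne
    · simp only [u, v, Sum.elim_inl]
      rw [Set.Ico_disjoint_Ico, min_le_iff, le_max_iff, le_max_iff]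
      have hne' : r ≠ r' := fun h => hne (by rw [h])
      rcases lt_or_gt_of_ne hne' with h | h
      · left; right
        gcongr
        exact_mod_cast h
      · right; left
        gcongr
        exact_mod_cast h
    · simp only [u, v, Sum.elim_inl, Sum.elim_inr]
      rw [Set.Ico_disjoint_Ico, min_le_iff]
      left
      rw [le_max_iff]
      right
      have hr : r < P.S k := by simpa using h1
      have h3 : ((r : ℝ) + 1) / P.S k ≤ 1 := by
        rw [div_le_one hS']; exact_mod_cast hr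
      have h4 : (0 : ℝ) ≤ (code e'.1 e'.2.1 e'.2.2 : ℕ) := Nat.cast_nonneg _
      linarith
    · simp only [u, v, Sum.elim_inl, Sum.elim_inr]
      rw [Set.Ico_disjoint_Ico, min_le_iff]
      right
      rw [le_max_iff]
      left
      have hr : r' < P.S k := by simpa using h2
      have h3 : ((r' : ℝ) + 1) / P.S k ≤ 1 := by
        rw [div_le_one hS']; exact_mod_cast hr
      have h4 : (0 : ℝ) ≤ (code e.1 e.2.1 e.2.2 : ℕ) := Nat.cast_nonneg _
      linarith
    · simp only [u, v, Sum.elim_inr]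
      rw [Set.Ico_disjoint_Ico, min_le_iff, le_max_iff, le_max_iff]
      have hne' : code e.1 e.2.1 e.2.2 ≠ code e'.1 e'.2.1 e'.2.2 := by
        intro h
        obtain ⟨q1, q2, q3⟩ := code_inj h
        apply hne
        obtain ⟨x, y, z⟩ := e
        obtain ⟨x', y', z'⟩ := e'
        simp only at q1 q2 q3
        subst q1 q2 q3
        rfl
      rcases lt_or_gt_of_ne hne' with h | h
      · left; right
        have : ((code e.1 e.2.1 e.2.2 : ℕ) : ℝ) + 1 ≤ (code e'.1 e'.2.1 e'.2.2 : ℕ) := by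
          exact_mod_cast h
        linarith
      · right; left
        have : ((code e'.1 e'.2.1 e'.2.2 : ℕ) : ℝ) + 1 ≤ (code e.1 e.2.1 e.2.2 : ℕ) := by
          exact_mod_cast h
        linarith

lemma norm_formula_succ (hp0 : p ≠ 0) (hp : p ≠ ∞) (a : ℕ → ℝ) (k : ℕ) :
    ‖∑ i ∈ range (P.O (k + 1)), a i • P.f p i‖ ^ p.toReal
      = (∑ x ∈ range (P.S k), G p.toReal (P.t k) (P.L k) (P.n k) (P.val a k x)
          (fun r => a (P.O k + (x * P.R k + r)))) / P.S k
        + ∑ j ∈ range k, P.en p.toReal a j := by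
  have hpp : 0 < p.toReal := ENNReal.toReal_pos hp0 hp
  rw [norm_formula P p hp0 hp, Finset.sum_range_succ, add_comm (∑ j ∈ range k, P.en p.toReal a j),
    ← add_assoc]
  congr 1
  set q := p.toReal with hq
  have hS := P.S_pos k
  have hS' : (0 : ℝ) < P.S k := by exact_mod_cast hS
  have hS1 : (0 : ℝ) < P.S (k + 1) := by exact_mod_cast P.S_pos (k + 1)
  have hn : (0 : ℝ) < P.n k := by exact_mod_cast P.hn k
  have hSR : (P.S (k + 1) : ℝ) = P.S k * (P.n k * 2 ^ P.L k) := by simp [S, R]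
  have hen : P.en q a k = (∑ y ∈ range (P.S k * P.n k),
      W q (P.t k) (P.L k) (fun r => a (P.O k + (y * 2 ^ P.L k + r)))) / P.S (k + 1) := by
    have h1 := W_double q (P.t k) (P.L k) (P.S k * P.n k) (fun r => a (P.O k + r))
    have h2 : P.S k * P.n k * 2 ^ P.L k = P.S (k + 1) := by simp only [S, R]; ring
    rw [h2] at h1
    rw [h1]
    unfold en
    rw [Finset.sum_div]
    refine Finset.sum_congr rfl (fun l _ => ?_)
    rw [Finset.sum_div]
    refine Finset.sum_congr rfl (fun c _ => ?_)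
    unfold ec
    rw [abs_mul, abs_of_nonneg (P.cf_nonneg q k l), Real.mul_rpow (P.cf_nonneg q k l) (abs_nonneg _)]
    have h3 : P.cf q k l ^ q
        = P.t k * (2 : ℝ) ^ (((l + 1 : ℕ) : ℝ) * (1 - q)) / P.S (k + 1) := by
      unfold cf
      have := P.ht k
      rw [← Real.rpow_mul (by positivity), one_div, inv_mul_cancel₀ hpp.ne', Real.rpow_one]
    rw [h3]
    ring
  rw [hen]
  have hval : ∑ r ∈ range (P.S (k + 1)), |P.val a (k + 1) r| ^ q
      = ∑ x ∈ range (P.S k), ∑ y ∈ range (P.n k), ∑ r ∈ range (2 ^ P.L k),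
          |P.val a k x + a (P.O k + (x * P.R k + (y * 2 ^ P.L k + r)))| ^ q := by
    rw [show P.S (k + 1) = P.S k * P.R k from rfl, sum_range_mul']
    refine Finset.sum_congr rfl (fun x _ => ?_)
    rw [← sum_range_mul' (P.n k) (2 ^ P.L k)
      (fun r => |P.val a k x + a (P.O k + (x * P.R k + r))| ^ q)]
    refine Finset.sum_congr rfl (fun r hr => ?_)
    simp only [val]
    have hr' : r < P.R k := Finset.mem_range.mp hr
    rw [div_aux x r _ hr']
  rw [hval, sum_range_mul', ← add_div, ← Finset.sum_add_distrib, hSR, div_eq_div_iff (by positivity)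
    (by positivity), Finset.sum_mul, Finset.sum_mul]
  refine Finset.sum_congr rfl (fun x _ => ?_)
  unfold G G0
  rw [← Finset.sum_add_distrib]
  simp only [Finset.mul_sum, Finset.sum_mul]
  refine Finset.sum_congr rfl (fun y _ => ?_)
  have h4 : (fun r => a (P.O k + ((x * P.n k + y) * 2 ^ P.L k + r)))
      = (fun r => a (P.O k + (x * P.R k + (y * 2 ^ P.L k + r)))) := by
    funext r
    congr 2
    unfold R
    ring
  rw [h4]
  field_simp

end Par

end Pool.Agent.Helper35.NonnegBasis
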