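import Mathlib
import Pool.Agent.Helper35.NonnegBasis.System

set_option autoImplicit false

open MeasureTheory Finset
open scoped ENNReal

namespace Pool.Agent.Helper35.NonnegBasis

namespace Par

variable (P : Par) (p : ℝ≥0∞)

lemma val_congr (a a' : ℕ → ℝ) (k : ℕ) (h : ∀ i < P.O k, a i = a' i) :
    ∀ r < P.S k, P.val a k r = P.val a' k r := by
  induction k with
  | zero =>
    intro r _
    simp only [val]
    exact h 0 (by simp [O])
  | succ k ih =>
    intro r hr
    simp only [val]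
    have hO := P.O_lt k
    rw [ih (fun i hi => h i (by omega)) (r / P.R k)
      (by rw [Nat.div_lt_iff_lt_mul (P.R_pos k)]; exact hr),
      h (P.O k + r) (by simp only [O]; omega)]

lemma en_congr (q : ℝ) (a a' : ℕ → ℝ) (j : ℕ) (h : ∀ i < P.O (j + 1), a i = a' i) :
    P.en q a j = P.en q a' j := by
  unfold en
  refine Finset.sum_congr rfl (fun l _ => ?_)
  refine Finset.sum_congr rfl (fun c hc => ?_)
  have hc' := Finset.mem_range.mp hc
  unfold ec
  have key : ∑ r ∈ range (2 ^ (l + 1)), a (P.O j + (c * 2 ^ (l + 1) + r))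
      = ∑ r ∈ range (2 ^ (l + 1)), a' (P.O j + (c * 2 ^ (l + 1) + r)) := by
    refine Finset.sum_congr rfl (fun r hr => ?_)
    have hr' := Finset.mem_range.mp hr
    apply h
    simp only [O]
    have h1 : (c + 1) * 2 ^ (l + 1) ≤ P.S (j + 1) :=
      (Nat.mul_le_mul_right _ hc').trans (Nat.div_mul_le_self _ _)
    have h2 : (c + 1) * 2 ^ (l + 1) = c * 2 ^ (l + 1) + 2 ^ (l + 1) := by ring
    omega
  rw [key]

lemma sum_tr (a : ℕ → ℝ) (M N : ℕ) (h : M ≤ N) :
    ∑ i ∈ range N, tr a M i • P.f p i = ∑ i ∈ range M, a i • P.f p i := by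
  rw [← Finset.sum_subset (Finset.range_subset_range.mpr h)]
  · refine Finset.sum_congr rfl (fun i hi => ?_)
    unfold tr
    rw [if_pos (Finset.mem_range.mp hi)]
  · intro i _ hi
    unfold tr
    rw [if_neg (fun h => hi (Finset.mem_range.mpr h)), zero_smul]

lemma tr_tr (a : ℕ → ℝ) (M M' : ℕ) (h : M ≤ M') : tr (tr a M') M = tr a M := by
  funext i
  unfold tr
  by_cases hi : i < M
  · rw [if_pos hi, if_pos (by omega), if_pos hi]
  · rw [if_neg hi, if_neg hi]

lemma group_ineq (hp0 : p ≠ 0) (hp : p ≠ ∞) (e : ℕ → ℝ) (he : ∀ k, 0 ≤ e k)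
    (hc : ∀ k x b J, G p.toReal (P.t k) (P.L k) (P.n k) x (tr b J)
      ≤ (1 + e k) * G p.toReal (P.t k) (P.L k) (P.n k) x b)
    (a : ℕ → ℝ) (k M : ℕ) (hM : P.O k ≤ M) :
    ‖∑ i ∈ range (P.O (k + 1)), tr a M i • P.f p i‖ ^ p.toReal
      ≤ (1 + e k) * ‖∑ i ∈ range (P.O (k + 1)), a i • P.f p i‖ ^ p.toReal := by
  have hS' : (0 : ℝ) < P.S k := by exact_mod_cast P.S_pos k
  rw [norm_formula_succ P p hp0 hp, norm_formula_succ P p hp0 hp]
  have h1 : ∑ j ∈ range k, P.en p.toReal (tr a M) j = ∑ j ∈ range k, P.en p.toReal a j := by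
    refine Finset.sum_congr rfl (fun j hj => ?_)
    apply P.en_congr
    intro i hi
    have h3 : P.O (j + 1) ≤ P.O k := P.O_strictMono.monotone (Finset.mem_range.mp hj)
    unfold tr
    rw [if_pos (by omega)]
  have h2 : ∑ x ∈ range (P.S k), G p.toReal (P.t k) (P.L k) (P.n k) (P.val (tr a M) k x)
      (fun r => tr a M (P.O k + (x * P.R k + r)))
      ≤ (1 + e k) * ∑ x ∈ range (P.S k), G p.toReal (P.t k) (P.L k) (P.n k) (P.val a k x)
      (fun r => a (P.O k + (x * P.R k + r))) := by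
    rw [Finset.mul_sum]
    refine Finset.sum_le_sum (fun x hx => ?_)
    have h3 : P.val (tr a M) k x = P.val a k x := by
      apply P.val_congr _ _ _ _ x (Finset.mem_range.mp hx)
      intro i hi
      unfold tr
      rw [if_pos (by omega)]
    have h4 : (fun r => tr a M (P.O k + (x * P.R k + r)))
        = tr (fun r => a (P.O k + (x * P.R k + r))) (M - (P.O k + x * P.R k)) := by
      have := tr_shift a M (P.O k + x * P.R k)
      simp only [Nat.add_assoc] at this
      exact this
    rw [h3, h4]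
    exact hc k _ _ _
  rw [h1, mul_add, mul_div_assoc']
  have h5 : 0 ≤ ∑ j ∈ range k, P.en p.toReal a j :=
    Finset.sum_nonneg (fun j _ => P.en_nonneg _ _ _)
  apply add_le_add
  · exact div_le_div_of_nonneg_right h2 hS'.le
  · have := he k
    nlinarith

lemma claimA (hp0 : p ≠ 0) (hp : p ≠ ∞) (e : ℕ → ℝ) (he : ∀ k, 0 ≤ e k)
    (hc : ∀ k x b J, G p.toReal (P.t k) (P.L k) (P.n k) x (tr b J)
      ≤ (1 + e k) * G p.toReal (P.t k) (P.L k) (P.n k) x b)
    (a : ℕ → ℝ) (k M M' : ℕ) (hM : P.O k ≤ M) (hM2 : M ≤ M') (hM' : M' ≤ P.O (k + 1)) :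
    ‖∑ i ∈ range M, a i • P.f p i‖ ^ p.toReal
      ≤ (1 + e k) * ‖∑ i ∈ range M', a i • P.f p i‖ ^ p.toReal := by
  have h := P.group_ineq p hp0 hp e he hc (tr a M') k M hM
  rw [tr_tr a M M' hM2, P.sum_tr p a M _ (by omega), P.sum_tr p a M' _ hM'] at h
  exact h

lemma claimB [Fact (1 ≤ p)] (hp0 : p ≠ 0) (hp : p ≠ ∞) (e : ℕ → ℝ) (he : ∀ k, 0 ≤ e k)
    (hc : ∀ k x b J, G p.toReal (P.t k) (P.L k) (P.n k) x (tr b J)
      ≤ (1 + e k) * G p.toReal (P.t k) (P.L k) (P.n k) x b)
    (a : ℕ → ℝ) (K : ℕ) : ∀ m n, m ≤ n → n ≤ P.O K →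
    ‖∑ i ∈ range m, a i • P.f p i‖ ^ p.toReal
      ≤ (∏ j ∈ range K, (1 + e j)) * ‖∑ i ∈ range n, a i • P.f p i‖ ^ p.toReal := by
  have hpp : 0 < p.toReal := ENNReal.toReal_pos hp0 hp
  have hprod : ∀ K, 1 ≤ ∏ j ∈ range K, (1 + e j) := by
    intro K
    induction K with
    | zero => simp
    | succ K ih =>
      rw [Finset.prod_range_succ]
      have := he K
      nlinarith
  induction K with
  | zero =>
    intro m n hmn hn
    simp only [O] at hn
    rcases Nat.eq_zero_or_pos m with h | h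
    · subst h
      simp only [Finset.range_zero, Finset.sum_empty, norm_zero, Finset.prod_empty, one_mul]
      rw [Real.zero_rpow hpp.ne']
      positivity
    · have h1 : m = n := by omega
      subst h1
      simp
  | succ K ih =>
    intro m n hmn hn
    have h0 : 0 ≤ ‖∑ i ∈ range n, a i • P.f p i‖ ^ p.toReal := by positivity
    have hp1 := hprod K
    have he1 := he K
    rw [Finset.prod_range_succ]
    rcases Nat.lt_or_ge n (P.O K) with h1 | h1
    · have h2 := ih m n hmn h1.le
      refine h2.trans ?_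
      apply mul_le_mul_of_nonneg_right _ h0
      nlinarith
    · rcases Nat.lt_or_ge m (P.O K) with h2 | h2
      · have h3 := ih m (P.O K) h2.le le_rfl
        have h4 := P.claimA p hp0 hp e he hc a K (P.O K) n le_rfl h1 hn
        calc _ ≤ _ := h3
          _ ≤ (∏ j ∈ range K, (1 + e j)) *
              ((1 + e K) * ‖∑ i ∈ range n, a i • P.f p i‖ ^ p.toReal) :=
            mul_le_mul_of_nonneg_left h4 (by linarith)
          _ = _ := by ring
      · have h4 := P.claimA p hp0 hp e he hc a K m n h2 hmn hn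
        refine h4.trans ?_
        apply mul_le_mul_of_nonneg_right _ h0
        nlinarith

end Par

/-- choice of the parameters -/
theorem exists_par (p : ℝ≥0∞) [hp1 : Fact (1 ≤ p)] (hp : p ≠ ∞) (ε : ℝ) (hε : 0 < ε) :
    ∃ P : Par, ∀ (a : ℕ → ℝ) (m n : ℕ), m ≤ n →
      ‖∑ i ∈ range m, a i • P.f p i‖ ≤ (1 + ε) * ‖∑ i ∈ range n, a i • P.f p i‖ := by
  have hp0 : p ≠ 0 := (lt_of_lt_of_le zero_lt_one hp1.out).ne'
  have hq1 : 1 ≤ p.toReal := by
    rw [← ENNReal.toReal_one]
    exact (ENNReal.toReal_le_toReal ENNReal.one_ne_top hp).mpr hp1.out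
  have hpp : 0 < p.toReal := by linarith
  set δ : ℝ := Real.log (1 + ε) with hδ
  have hδ0 : 0 < δ := Real.log_pos (by linarith)
  let e : ℕ → ℝ := fun k => δ / 2 ^ (k + 1)
  have he : ∀ k, 0 < e k := fun k => by simp only [e]; positivity
  choose n L t hn hL ht hc using fun k => core p.toReal hq1 (e k) (he k)
  let P : Par := ⟨n, L, t, hn, hL, ht⟩
  refine ⟨P, fun a m N hmN => ?_⟩
  obtain ⟨K, hK⟩ := P.exists_lt_O N
  have h1 := P.claimB p hp0 hp e (fun k => (he k).le) hc a K m N hmN hK.le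
  have h2 : ∏ j ∈ range K, (1 + e j) ≤ 1 + ε := by
    calc ∏ j ∈ range K, (1 + e j) ≤ ∏ j ∈ range K, Real.exp (e j) := by
          apply Finset.prod_le_prod
          · intro j _
            have := he j
            linarith
          · intro j _
            have := Real.add_one_le_exp (e j)
            linarith
      _ = Real.exp (∑ j ∈ range K, e j) := by rw [Real.exp_sum]
      _ ≤ Real.exp δ := by
          apply Real.exp_le_exp.mpr
          have h3 : ∀ K : ℕ, ∑ j ∈ range K, e j = δ * (1 - 1 / 2 ^ K) := by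
            intro K
            induction K with
            | zero => simp
            | succ K ih =>
              rw [Finset.sum_range_succ, ih]
              simp only [e]
              field_simp
              ring
          rw [h3]
          have h4 : (0 : ℝ) ≤ 1 / 2 ^ K := by positivity
          nlinarith
      _ = 1 + ε := by rw [hδ, Real.exp_log (by linarith)]
  set A := ‖∑ i ∈ range m, a i • P.f p i‖ with hA
  set B := ‖∑ i ∈ range N, a i • P.f p i‖ with hB
  have hA0 : 0 ≤ A := norm_nonneg _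
  have hB0 : 0 ≤ B := norm_nonneg _
  have h3 : A ^ p.toReal ≤ ((1 + ε) * B) ^ p.toReal := by
    rw [Real.mul_rpow (by linarith) hB0]
    calc A ^ p.toReal ≤ (∏ j ∈ range K, (1 + e j)) * B ^ p.toReal := h1
      _ ≤ (1 + ε) * B ^ p.toReal := mul_le_mul_of_nonneg_right h2 (by positivity)
      _ ≤ (1 + ε) ^ p.toReal * B ^ p.toReal := by
          apply mul_le_mul_of_nonneg_right _ (by positivity)
          calc (1 + ε) = (1 + ε) ^ (1 : ℝ) := (Real.rpow_one _).symm
            _ ≤ _ := Real.rpow_le_rpow_of_exponent_le (by linarith) hq1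
  exact (Real.rpow_le_rpow_iff hA0 (by positivity) hpp).mp h3

end Pool.Agent.Helper35.NonnegBasis
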