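import Mathlib
import Pool.Agent.Helper35.NonnegBasis.Ineq

set_option autoImplicit false

open MeasureTheory Finset
open scoped ENNReal

namespace Pool.Agent.Helper35.NonnegBasis

namespace Par

variable (P : Par) (p : ℝ≥0∞)

lemma sum_nonneg_Lp (s : Finset ℕ) (v : ℕ → Lp ℝ p (volume : Measure ℝ)) (h : ∀ i ∈ s, 0 ≤ v i) :
    0 ≤ ∑ i ∈ s, v i := Finset.sum_nonneg h

lemma extra_nonneg (k r : ℕ) :
    0 ≤ ∑ l ∈ range (P.L k), P.cf p.toReal k l • X p (code k l (r / 2 ^ (l + 1))) :=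
  sum_nonneg_Lp p _ _ (fun _ _ => smul_nonneg_Lp p _ (P.cf_nonneg _ _ _) _ (ind_nonneg p _ _))

lemma E_le_g (k r : ℕ) : P.E p (k + 1) r ≤ P.g p k r := by
  unfold g
  exact le_add_of_nonneg_right (P.extra_nonneg p k r)

lemma E_nonneg (k r : ℕ) : 0 ≤ P.E p k r := ind_nonneg p _ _

lemma exists_E_le (i : ℕ) : ∃ k r, P.E p k r ≤ P.f p i := by
  by_cases hi : i < 1
  · have : i = 0 := by omega
    subst this
    exact ⟨0, 0, le_of_eq (P.f_zero p).symm⟩
  · unfold f
    rw [if_neg hi]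
    exact ⟨_, _, P.E_le_g p _ _⟩

lemma f_nonneg (i : ℕ) : 0 ≤ P.f p i := by
  obtain ⟨k, r, h⟩ := P.exists_E_le p i
  exact (P.E_nonneg p k r).trans h

lemma E_norm_pow (hp0 : p ≠ 0) (hp : p ≠ ∞) (k r : ℕ) :
    ‖P.E p k r‖ ^ p.toReal = 1 / P.S k := by
  have hS' : (0 : ℝ) < P.S k := by exact_mod_cast P.S_pos k
  have h := norm_sum_ind_pow p hp0 hp {r} (fun r : ℕ => (r : ℝ) / P.S k)
    (fun r : ℕ => ((r : ℝ) + 1) / P.S k) (by
      intro i _
      show (i : ℝ) / P.S k ≤ ((i : ℝ) + 1) / P.S k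
      gcongr
      linarith)
    (by
      intro i hi j hj hij
      rw [Finset.mem_singleton] at hi hj
      exact absurd (hi.trans hj.symm) hij) (fun _ => 1)
  rw [Finset.sum_singleton, Finset.sum_singleton, one_smul] at h
  unfold E
  rw [h]
  simp
  field_simp
  ring

lemma f_ne_zero [Fact (1 ≤ p)] (hp0 : p ≠ 0) (hp : p ≠ ∞) (i : ℕ) : P.f p i ≠ 0 := by
  intro h0
  obtain ⟨k, r, h⟩ := P.exists_E_le p i
  rw [h0] at h
  have h1 : P.E p k r = 0 := le_antisymm h (P.E_nonneg p k r)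
  have h2 := P.E_norm_pow p hp0 hp k r
  have hpp : 0 < p.toReal := ENNReal.toReal_pos hp0 hp
  have hS' : (0 : ℝ) < P.S k := by exact_mod_cast P.S_pos k
  rw [h1, norm_zero, Real.zero_rpow hpp.ne'] at h2
  have : (0 : ℝ) < 1 / P.S k := by positivity
  linarith

/-- binary digits read off from the index -/
def idx : ℕ → ℕ → ℕ
  | 0, _ => 0
  | (K + 1), r => 2 * idx K (r / P.R K) + r % 2

lemma two_dvd_R (k : ℕ) : 2 ∣ P.R k := by
  unfold R
  have := P.hL k
  exact dvd_mul_of_dvd_right (dvd_pow_self 2 (by omega)) _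

lemma g_sub (k c : ℕ) : P.g p k (2 * c) - P.g p k (2 * c + 1)
    = P.E p (k + 1) (2 * c) - P.E p (k + 1) (2 * c + 1) := by
  unfold g
  have h : ∀ l, (2 * c) / 2 ^ (l + 1) = (2 * c + 1) / 2 ^ (l + 1) := by
    intro l
    rw [pow_succ', ← Nat.div_div_eq_div_mul, ← Nat.div_div_eq_div_mul]
    congr 1
    omega
  simp only [h]
  abel

lemma sum_pairs {M : Type*} [AddCommGroup M] [Module ℝ M] (β : ℕ → ℝ) (v w : ℕ → M)
    (hβ : ∀ c, β (2 * c + 1) = - β (2 * c))
    (hv : ∀ c, v (2 * c) - v (2 * c + 1) = w (2 * c) - w (2 * c + 1)) (N : ℕ) :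
    ∑ r ∈ range (2 * N), β r • v r = ∑ r ∈ range (2 * N), β r • w r := by
  induction N with
  | zero => simp
  | succ N ih =>
    rw [show 2 * (N + 1) = 2 * N + 1 + 1 by ring, Finset.sum_range_succ, Finset.sum_range_succ,
      Finset.sum_range_succ, Finset.sum_range_succ, ih, add_assoc, add_assoc]
    congr 1
    rw [hβ N]
    have h1 := congrArg (fun z => β (2 * N) • z) (hv N)
    simp only [smul_sub] at h1
    rw [neg_smul, neg_smul, ← sub_eq_add_neg, ← sub_eq_add_neg]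
    exact h1

lemma step_mem (K : ℕ) : ∀ h : ℕ → ℝ, ∑ r ∈ range (P.S K), h (P.idx K r) • P.E p K r
    ∈ Submodule.span ℝ (Set.range (P.f p)) := by
  induction K with
  | zero =>
    intro h
    simp only [S, Finset.sum_range_one, idx]
    rw [← P.f_zero p]
    exact Submodule.smul_mem _ _ (Submodule.subset_span ⟨0, rfl⟩)
  | succ K ih =>
    intro h
    let u : ℕ → ℝ := fun i => (h (2 * i) + h (2 * i + 1)) / 2
    let β : ℕ → ℝ := fun r => h (P.idx (K + 1) r) - u (P.idx K (r / P.R K))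
    have h1 : ∑ r ∈ range (P.S (K + 1)), h (P.idx (K + 1) r) • P.E p (K + 1) r
        = ∑ r ∈ range (P.S (K + 1)), u (P.idx K (r / P.R K)) • P.E p (K + 1) r
          + ∑ r ∈ range (P.S (K + 1)), β r • P.E p (K + 1) r := by
      rw [← Finset.sum_add_distrib]
      refine Finset.sum_congr rfl (fun r _ => ?_)
      rw [← add_smul]
      congr 1
      simp only [β]
      ring
    rw [h1, ← P.refine_sum p K (fun x => u (P.idx K x))]
    refine Submodule.add_mem _ (ih u) ?_
    obtain ⟨N, hN⟩ : 2 ∣ P.S (K + 1) := dvd_mul_of_dvd_right (P.two_dvd_R K) _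
    obtain ⟨R', hR'⟩ := P.two_dvd_R K
    have hβ : ∀ c, β (2 * c + 1) = - β (2 * c) := by
      intro c
      have e1 : (2 * c + 1) / P.R K = c / R' := by
        rw [hR', ← Nat.div_div_eq_div_mul]
        congr 1
        omega
      have e2 : (2 * c) / P.R K = c / R' := by
        rw [hR', ← Nat.div_div_eq_div_mul]
        congr 1
        omega
      have e3 : (2 * c + 1) % 2 = 1 := by omega
      have e4 : (2 * c) % 2 = 0 := by omega
      simp only [β, idx, e1, e2, e3, e4, u, add_zero]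
      ring
    rw [hN, ← sum_pairs β (P.g p K) (P.E p (K + 1)) hβ (P.g_sub p K) N, ← hN]
    refine Submodule.sum_mem _ (fun r hr => ?_)
    rw [← P.f_group p K r (Finset.mem_range.mp hr)]
    exact Submodule.smul_mem _ _ (Submodule.subset_span ⟨_, rfl⟩)

end Par

end Pool.Agent.Helper35.NonnegBasis
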