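import Mathlib
import Pool.Agent.Helper35.NonnegBasis.Span

set_option autoImplicit false

open MeasureTheory Finset unitInterval
open scoped ENNReal

namespace Pool.Agent.Helper35.NonnegBasis

namespace Par

variable (P : Par)

lemma idx_lt (K : ℕ) : ∀ r, P.idx K r < 2 ^ K := by
  induction K with
  | zero => intro r; simp [idx]
  | succ K ih =>
    intro r
    have h := ih (r / P.R K)
    have h2 : r % 2 < 2 := Nat.mod_lt _ (by norm_num)
    simp only [idx]
    rw [pow_succ]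
    omega

lemma sum_idx (K : ℕ) : ∀ h : ℕ → ℝ, ∑ r ∈ range (P.S K), h (P.idx K r)
    = (P.S K : ℝ) / 2 ^ K * ∑ j ∈ range (2 ^ K), h j := by
  induction K with
  | zero => intro h; simp [S, idx]
  | succ K ih =>
    intro h
    obtain ⟨R', hR'⟩ := P.two_dvd_R K
    have e0 : P.S (K + 1) = (P.S K * R') * 2 := by
      simp only [S]; rw [hR']; ring
    have e1 : ∀ c s, s < 2 → (c * 2 + s) / P.R K = c / R' := by
      intro c s hs
      rw [hR', ← Nat.div_div_eq_div_mul]
      congr 1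
      omega
    have e2 : ∀ c s, s < 2 → (c * 2 + s) % 2 = s := by
      intro c s hs
      omega
    have h1 : ∑ r ∈ range (P.S (K + 1)), h (P.idx (K + 1) r)
        = ∑ c ∈ range (P.S K * R'), (h (2 * P.idx K (c / R')) + h (2 * P.idx K (c / R') + 1)) := by
      rw [e0, sum_range_mul']
      refine Finset.sum_congr rfl (fun c _ => ?_)
      rw [Finset.sum_range_succ, Finset.sum_range_one]
      simp only [idx]
      rw [e1 c 0 (by norm_num), e1 c 1 (by norm_num), e2 c 0 (by norm_num), e2 c 1 (by norm_num),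
        add_zero]
    have hR'0 : 0 < R' := by
      have := P.R_pos K
      omega
    have h2 : ∑ c ∈ range (P.S K * R'), (h (2 * P.idx K (c / R')) + h (2 * P.idx K (c / R') + 1))
        = R' * ∑ a ∈ range (P.S K), (h (2 * P.idx K a) + h (2 * P.idx K a + 1)) := by
      rw [sum_range_mul', Finset.mul_sum]
      refine Finset.sum_congr rfl (fun a _ => ?_)
      rw [Finset.sum_congr rfl (g := fun _ => (h (2 * P.idx K a) + h (2 * P.idx K a + 1)))
        (fun b hb => by rw [div_aux a b _ (Finset.mem_range.mp hb)])]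
      rw [Finset.sum_const, Finset.card_range, nsmul_eq_mul]
    rw [h1, h2, ih (fun i => h (2 * i) + h (2 * i + 1))]
    have h3 : ∑ j ∈ range (2 ^ (K + 1)), h j
        = ∑ j ∈ range (2 ^ K), (h (2 * j) + h (2 * j + 1)) := by
      rw [pow_succ, sum_range_mul']
      refine Finset.sum_congr rfl (fun c _ => ?_)
      rw [Finset.sum_range_succ, Finset.sum_range_one, add_zero, mul_comm c 2]
    rw [h3, e0]
    push_cast
    rw [pow_succ]
    field_simp

/-- dyadic approximations -/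
noncomputable def dy (K : ℕ) (x : ℝ) : ℕ := P.idx K ⌊x * P.S K⌋₊

lemma dy_succ (K : ℕ) (x : ℝ) :
    2 * P.dy K x ≤ P.dy (K + 1) x ∧ P.dy (K + 1) x ≤ 2 * P.dy K x + 1 := by
  have hR : (0 : ℝ) < P.R K := by exact_mod_cast P.R_pos K
  have h1 : ⌊x * P.S (K + 1)⌋₊ / P.R K = ⌊x * P.S K⌋₊ := by
    rw [← Nat.floor_div_natCast]
    congr 1
    simp only [S]
    push_cast
    field_simp
  unfold dy
  simp only [idx]
  rw [h1]
  omega

lemma dy_lt (K : ℕ) (x : ℝ) : P.dy K x < 2 ^ K := P.idx_lt K _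

lemma dy_mono (x : ℝ) (K : ℕ) : ∀ m, (P.dy K x : ℝ) / 2 ^ K ≤ (P.dy (K + m) x : ℝ) / 2 ^ (K + m) := by
  intro m
  induction m with
  | zero => exact le_rfl
  | succ m ih =>
    refine ih.trans ?_
    have h := (P.dy_succ (K + m) x).1
    rw [div_le_div_iff₀ (by positivity) (by positivity), ← add_assoc, pow_succ]
    have h' : (2 : ℝ) * P.dy (K + m) x ≤ P.dy (K + m + 1) x := by exact_mod_cast h
    have h0 : (0 : ℝ) < 2 ^ (K + m) := by positivity
    nlinarith

lemma dy_anti (x : ℝ) (K : ℕ) : ∀ m,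
    ((P.dy (K + m) x : ℝ) + 1) / 2 ^ (K + m) ≤ ((P.dy K x : ℝ) + 1) / 2 ^ K := by
  intro m
  induction m with
  | zero => exact le_rfl
  | succ m ih =>
    refine le_trans ?_ ih
    have h := (P.dy_succ (K + m) x).2
    rw [div_le_div_iff₀ (by positivity) (by positivity), ← add_assoc, pow_succ]
    have h' : (P.dy (K + m + 1) x : ℝ) ≤ 2 * P.dy (K + m) x + 1 := by exact_mod_cast h
    have h0 : (0 : ℝ) < 2 ^ (K + m) := by positivity
    nlinarith

lemma dy_le_one (K : ℕ) (x : ℝ) : (P.dy K x : ℝ) / 2 ^ K ≤ 1 := by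
  rw [div_le_one (by positivity)]
  exact_mod_cast (P.dy_lt K x).le

lemma dy_bdd (x : ℝ) : BddAbove (Set.range (fun K => (P.dy K x : ℝ) / 2 ^ K)) :=
  ⟨1, by rintro _ ⟨K, rfl⟩; exact P.dy_le_one K x⟩

/-- the map given by the digits -/
noncomputable def bt (x : ℝ) : ℝ := ⨆ K, (P.dy K x : ℝ) / 2 ^ K

lemma le_bt (K : ℕ) (x : ℝ) : (P.dy K x : ℝ) / 2 ^ K ≤ P.bt x := le_ciSup (P.dy_bdd x) K

lemma bt_le (K : ℕ) (x : ℝ) : P.bt x ≤ ((P.dy K x : ℝ) + 1) / 2 ^ K := by
  apply ciSup_le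
  intro M
  rcases Nat.le_total K M with h | h
  · obtain ⟨m, rfl⟩ := Nat.exists_eq_add_of_le h
    refine le_trans ?_ (P.dy_anti x K m)
    gcongr
    linarith
  · obtain ⟨m, rfl⟩ := Nat.exists_eq_add_of_le h
    refine le_trans (P.dy_mono x M m) ?_
    gcongr
    linarith

lemma bt_mem (x : ℝ) : P.bt x ∈ Set.Icc (0 : ℝ) 1 := by
  refine ⟨?_, ciSup_le (fun K => P.dy_le_one K x)⟩
  refine le_trans ?_ (P.le_bt 0 x)
  positivity

lemma measurable_dy (K : ℕ) : Measurable (P.dy K) := by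
  unfold dy
  have h1 : Measurable (fun x : ℝ => ⌊x * P.S K⌋₊) := Nat.measurable_floor.comp (by fun_prop)
  exact (measurable_of_countable (P.idx K)).comp h1

lemma measurable_bt : Measurable P.bt := by
  unfold bt
  refine Measurable.iSup (fun K => ?_)
  have h1 : Measurable (fun x => (P.dy K x : ℝ)) :=
    (measurable_of_countable (fun n : ℕ => (n : ℝ))).comp (P.measurable_dy K)
  exact h1.div_const _

/-- the map given by the digits, with values in the unit interval -/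
noncomputable def btI (x : ℝ) : I := ⟨P.bt x, P.bt_mem x⟩

lemma measurable_btI : Measurable P.btI := P.measurable_bt.subtype_mk

lemma mem_atom {K r : ℕ} {x : ℝ} :
    x ∈ Set.Ico ((r : ℝ) / P.S K) (((r : ℝ) + 1) / P.S K) ↔ 0 ≤ x ∧ ⌊x * P.S K⌋₊ = r := by
  have hS' : (0 : ℝ) < P.S K := by exact_mod_cast P.S_pos K
  rw [Set.mem_Ico, div_le_iff₀ hS', lt_div_iff₀ hS']
  constructor
  · rintro ⟨h1, h2⟩
    have hr : (0 : ℝ) ≤ r := Nat.cast_nonneg r
    have h3 : 0 ≤ x * P.S K := hr.trans h1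
    have h4 : 0 ≤ x := nonneg_of_mul_nonneg_left h3 hS'
    exact ⟨h4, (Nat.floor_eq_iff h3).mpr ⟨h1, h2⟩⟩
  · rintro ⟨h1, h2⟩
    have h3 : 0 ≤ x * P.S K := by positivity
    exact (Nat.floor_eq_iff h3).mp h2

lemma floor_lt {K : ℕ} {x : ℝ} (h1 : x < 1) : ⌊x * P.S K⌋₊ < P.S K := by
  have hS' : (0 : ℝ) < P.S K := by exact_mod_cast P.S_pos K
  rw [Nat.floor_lt' (P.S_pos K).ne']
  nlinarith

lemma vol_dy (K m : ℕ) : (volume {x : ℝ | x ∈ Set.Ico (0 : ℝ) 1 ∧ P.dy K x < m}).toReal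
    = (min m (2 ^ K) : ℕ) / 2 ^ K := by
  classical
  have hS' : (0 : ℝ) < P.S K := by exact_mod_cast P.S_pos K
  have h1 : {x : ℝ | x ∈ Set.Ico (0 : ℝ) 1 ∧ P.dy K x < m}
      = ⋃ r ∈ (range (P.S K)).filter (fun r => P.idx K r < m),
        Set.Ico ((r : ℝ) / P.S K) (((r : ℝ) + 1) / P.S K) := by
    ext x
    simp only [Set.mem_ofPred_eq, Set.mem_iUnion, Finset.mem_filter, Finset.mem_range, exists_prop,
      P.mem_atom]
    constructor
    · rintro ⟨⟨h1, h2⟩, h3⟩
      exact ⟨_, ⟨P.floor_lt h2, h3⟩, h1, rfl⟩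
    · rintro ⟨r, ⟨h1, h2⟩, h3, h4⟩
      refine ⟨⟨h3, ?_⟩, ?_⟩
      · have h5 : x * P.S K < r + 1 := by
          have := Nat.lt_floor_add_one (x * P.S K)
          rw [h4] at this
          exact this
        have h6 : (r : ℝ) + 1 ≤ P.S K := by exact_mod_cast h1
        nlinarith
      · unfold dy
        rw [h4]
        exact h2
  rw [h1, measure_biUnion_finset _ (fun r _ => measurableSet_Ico)]
  · simp only [Real.volume_Ico]
    rw [ENNReal.toReal_sum (fun r _ => ENNReal.ofReal_ne_top)]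
    have h2 : ∀ r : ℕ, (ENNReal.ofReal (((r : ℝ) + 1) / P.S K - (r : ℝ) / P.S K)).toReal
        = 1 / P.S K := by
      intro r
      rw [ENNReal.toReal_ofReal]
      · field_simp; ring
      · rw [← sub_div]; simp
    simp only [h2]
    rw [Finset.sum_filter, P.sum_idx K (fun i => if i < m then 1 / (P.S K : ℝ) else 0),
      ← Finset.sum_filter, Finset.sum_const, nsmul_eq_mul]
    have h3 : ((range (2 ^ K)).filter (fun i => i < m)) = range (min m (2 ^ K)) := by
      ext i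
      simp only [Finset.mem_filter, Finset.mem_range, lt_min_iff]
      tauto
    rw [h3, Finset.card_range]
    field_simp
  · intro r _ r' _ hne
    rw [Function.onFun, Set.disjoint_left]
    intro x hx hx'
    rw [P.mem_atom] at hx hx'
    exact hne (hx.2.symm.trans hx'.2)

lemma map_btI : ((volume : Measure ℝ).restrict (Set.Ico 0 1)).map P.btI = (volume : Measure I) := by
  have : IsFiniteMeasure ((volume : Measure ℝ).restrict (Set.Ico 0 1)) :=
    ⟨by simp⟩
  have : IsFiniteMeasure (((volume : Measure ℝ).restrict (Set.Ico 0 1)).map P.btI) :=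
    Measure.isFiniteMeasure_map _ _
  refine Measure.ext_of_Iic _ _ (fun y => ?_)
  rw [Measure.map_apply P.measurable_btI measurableSet_Iic, unitInterval.volume_Iic,
    Measure.restrict_apply (P.measurable_btI measurableSet_Iic)]
  set A : Set ℝ := P.btI ⁻¹' Set.Iic y ∩ Set.Ico 0 1 with hA
  have hAfin : volume A ≠ ∞ := by
    refine ne_top_of_le_ne_top ?_ (measure_mono Set.inter_subset_right)
    simp
  have hy0 : (0 : ℝ) ≤ y := y.2.1
  have hy1 : (y : ℝ) ≤ 1 := y.2.2
  rw [← ENNReal.ofReal_toReal hAfin]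
  congr 1
  have key : ∀ K : ℕ, |(volume A).toReal - y| ≤ (1 / 2) ^ K := by
    intro K
    set m := ⌊(y : ℝ) * 2 ^ K⌋₊ with hm
    have h2K : (0 : ℝ) < 2 ^ K := by positivity
    have hyK : 0 ≤ (y : ℝ) * 2 ^ K := by positivity
    have hm1 : (m : ℝ) ≤ y * 2 ^ K := Nat.floor_le hyK
    have hm2 : (y : ℝ) * 2 ^ K < m + 1 := Nat.lt_floor_add_one _
    have hmle : m ≤ 2 ^ K := by
      have : (m : ℝ) ≤ 2 ^ K := hm1.trans (by nlinarith)
      exact_mod_cast this
    have hlo : {x : ℝ | x ∈ Set.Ico (0 : ℝ) 1 ∧ P.dy K x < m} ⊆ A := by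
      rintro x ⟨hx1, hx2⟩
      refine ⟨?_, hx1⟩
      show P.bt x ≤ (y : ℝ)
      refine (P.bt_le K x).trans ?_
      rw [div_le_iff₀ h2K]
      have : (P.dy K x : ℝ) + 1 ≤ m := by exact_mod_cast hx2
      linarith
    have hhi : A ⊆ {x : ℝ | x ∈ Set.Ico (0 : ℝ) 1 ∧ P.dy K x < m + 1} := by
      rintro x ⟨hx1, hx2⟩
      refine ⟨hx2, ?_⟩
      have h3 : P.bt x ≤ (y : ℝ) := hx1
      have h4 := (P.le_bt K x).trans h3
      rw [div_le_iff₀ h2K] at h4
      have : P.dy K x ≤ m := Nat.le_floor h4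
      show P.dy K x < m + 1
      omega
    have hfin2 : volume {x : ℝ | x ∈ Set.Ico (0 : ℝ) 1 ∧ P.dy K x < m + 1} ≠ ∞ := by
      refine ne_top_of_le_ne_top ?_ (measure_mono (t := Set.Ico (0 : ℝ) 1) (fun x hx => hx.1))
      simp
    have h5 := ENNReal.toReal_mono hAfin (measure_mono hlo)
    have h6 := ENNReal.toReal_mono hfin2 (measure_mono hhi)
    rw [P.vol_dy K m, min_eq_left hmle] at h5
    rw [P.vol_dy K (m + 1)] at h6
    have h7 : ((min (m + 1) (2 ^ K) : ℕ) : ℝ) / 2 ^ K ≤ (m + 1) / 2 ^ K := by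
      apply div_le_div_of_nonneg_right _ h2K.le
      have : min (m + 1) (2 ^ K) ≤ m + 1 := min_le_left _ _
      exact_mod_cast this
    have h8 : ((1 : ℝ) / 2) ^ K = 1 / 2 ^ K := by rw [one_div_pow]
    rw [abs_le, h8]
    have h9 : (y : ℝ) ≤ (m + 1) / 2 ^ K := by rw [le_div_iff₀ h2K]; linarith
    have h10 : (m : ℝ) / 2 ^ K ≤ y := by rw [div_le_iff₀ h2K]; linarith
    have h11 : ((m : ℝ) + 1) / 2 ^ K = m / 2 ^ K + 1 / 2 ^ K := by rw [add_div]
    constructor <;> linarith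
  have hlim : Filter.Tendsto (fun K : ℕ => ((1 : ℝ) / 2) ^ K) Filter.atTop (nhds 0) :=
    tendsto_pow_atTop_nhds_zero_of_lt_one (by norm_num) (by norm_num)
  have h12 : |(volume A).toReal - y| ≤ 0 := ge_of_tendsto' hlim key
  have h13 := abs_nonpos_iff.mp h12
  linarith

end Par

end Pool.Agent.Helper35.NonnegBasis
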