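import Mathlib

set_option autoImplicit false

open Filter Topology

namespace Pool.Agent.Helper35.NonnegBasis

/-- Grunblum's criterion in quantitative form. -/
theorem grunblum {E : Type*} [NormedAddCommGroup E] [NormedSpace ℝ E] (f : ℕ → E)
    (hf : ∀ n, f n ≠ 0) (C : ℝ)
    (h : ∀ (a : ℕ → ℝ) (m n : ℕ), m ≤ n →
      ‖∑ i ∈ Finset.range m, a i • f i‖ ≤ C * ‖∑ i ∈ Finset.range n, a i • f i‖) :
    ∃ b : SchauderBasis ℝ (Submodule.span ℝ (Set.range f)).topologicalClosure,
      (∀ n, ((b n : (Submodule.span ℝ (Set.range f)).topologicalClosure) : E) = f n) ∧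
      ∀ n, ‖b.proj n‖ ≤ C := by
  classical
  have hC0 : 0 ≤ C := by
    have h1 := h (fun _ => 1) 1 1 le_rfl
    simp only [Finset.range_one, Finset.sum_singleton, one_smul] at h1
    have h2 : 0 < ‖f 0‖ := norm_pos_iff.mpr (hf 0)
    by_contra hc
    push Not at hc
    nlinarith
  -- linear independence
  have hli : LinearIndependent ℝ f := by
    rw [linearIndependent_iff']
    intro s g hs i hi
    obtain ⟨N, hN⟩ : ∃ N, s ⊆ Finset.range N := ⟨s.sup id + 1, fun x hx => by
      rw [Finset.mem_range]; exact Nat.lt_succ_of_le (Finset.le_sup (f := id) hx)⟩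
    set a : ℕ → ℝ := fun j => if j ∈ s then g j else 0 with ha
    have hsum : ∑ j ∈ Finset.range N, a j • f j = 0 := by
      rw [← hs, ← Finset.sum_subset hN]
      · exact Finset.sum_congr rfl (fun j hj => by simp [ha, hj])
      · intro j _ hj; simp [ha, hj]
    have hz : ∀ m, m ≤ N → ∑ j ∈ Finset.range m, a j • f j = 0 := by
      intro m hm
      have := h a m N hm
      rw [hsum, norm_zero, mul_zero] at this
      exact norm_le_zero_iff.mp this
    have hiN : i < N := Finset.mem_range.mp (hN hi)
    have h1 := hz (i + 1) hiN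
    rw [Finset.sum_range_succ, hz i hiN.le, zero_add] at h1
    have h2 : a i = 0 := (smul_eq_zero.mp h1).resolve_right (hf i)
    simpa [ha, hi] using h2
  set S : Submodule ℝ E := Submodule.span ℝ (Set.range f) with hS
  let B : Module.Basis ℕ ℝ S := Module.Basis.span hli
  have hB : ∀ n, ((B n : S) : E) = f n := fun n => by rw [Module.Basis.span_apply hli n]
  -- any element of S is a finite sum over range N
  have hexp : ∀ x : S, ∃ N, ∀ M, N ≤ M →
      ∑ i ∈ Finset.range M, B.repr x i • f i = (x : E) := by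
    intro x
    obtain ⟨N, hN⟩ : ∃ N, (B.repr x).support ⊆ Finset.range N :=
      ⟨(B.repr x).support.sup id + 1, fun y hy => by
        rw [Finset.mem_range]; exact Nat.lt_succ_of_le (Finset.le_sup (f := id) hy)⟩
    refine ⟨N, fun M hM => ?_⟩
    have h1 : (B.repr x).sum (fun i c => c • B i) = x := B.linearCombination_repr x
    have h2 : (((B.repr x).sum (fun i c => c • B i) : S) : E) = ∑ i ∈ Finset.range M, B.repr x i • f i := by
      rw [Finsupp.sum, AddSubmonoidClass.coe_finsetSum]
      rw [Finset.sum_subset (hN.trans (Finset.range_mono hM))]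
      · exact Finset.sum_congr rfl (fun i _ => by rw [Submodule.coe_smul, hB])
      · intro i _ hi
        rw [Finsupp.notMem_support_iff.mp hi]; simp
    rw [← h2, h1]
  have hPbound : ∀ (x : S) (m : ℕ), ‖∑ i ∈ Finset.range m, B.repr x i • f i‖ ≤ C * ‖(x : E)‖ := by
    intro x m
    obtain ⟨N, hN⟩ := hexp x
    have := h (fun i => B.repr x i) m (max m N) (le_max_left _ _)
    rwa [hN _ (le_max_right _ _)] at this
  have hcoordbd : ∀ (n : ℕ) (x : S), ‖B.coord n x‖ ≤ (2 * C / ‖f n‖) * ‖x‖ := by
    intro n x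
    have hpos : 0 < ‖f n‖ := norm_pos_iff.mpr (hf n)
    have h1 : B.repr x n • f n = ∑ i ∈ Finset.range (n + 1), B.repr x i • f i
        - ∑ i ∈ Finset.range n, B.repr x i • f i := by
      rw [Finset.sum_range_succ]; abel
    have h2 : ‖B.repr x n • f n‖ ≤ 2 * C * ‖(x : E)‖ := by
      rw [h1]
      refine (norm_sub_le _ _).trans ?_
      have := hPbound x (n + 1)
      have := hPbound x n
      linarith
    rw [norm_smul] at h2
    rw [Module.Basis.coord_apply, div_mul_eq_mul_div, le_div_iff₀ hpos]
    simpa using h2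
  choose g hg _ using fun n : ℕ =>
    exists_extension_norm_eq S ((B.coord n).mkContinuous _ (hcoordbd n))
  have hgB : ∀ n (x : S), g n (x : E) = B.repr x n := by
    intro n x
    rw [hg n x]; simp
  have hgf : ∀ n m, g n (f m) = (Pi.single m (1 : ℝ) : ℕ → ℝ) n := by
    intro n m
    rw [← hB m, hgB, Module.Basis.repr_self]
    simp [Finsupp.single_apply, Pi.single_apply, eq_comm]
  set V : Submodule ℝ E := S.topologicalClosure with hV
  have hSV : S ≤ V := S.le_topologicalClosure
  let e : ℕ → V := fun n => ⟨f n, hSV (Submodule.subset_span ⟨n, rfl⟩)⟩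
  let co : ℕ → StrongDual ℝ V := fun n => (g n).comp V.subtypeL
  have hco : ∀ n (x : V), co n x = g n (x : E) := fun n x => rfl
  -- the projections on E
  have hPS : ∀ (x : E), x ∈ V → ∀ m, ‖∑ i ∈ Finset.range m, g i x • f i‖ ≤ C * ‖x‖ := by
    intro x hx m
    have hclosed : IsClosed {y : E | ‖∑ i ∈ Finset.range m, g i y • f i‖ ≤ C * ‖y‖} := by
      apply isClosed_le
      · fun_prop
      · fun_prop
    have hsub : (S : Set E) ⊆ {y : E | ‖∑ i ∈ Finset.range m, g i y • f i‖ ≤ C * ‖y‖} := by
      intro y hy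
      have h0 := hPbound ⟨y, hy⟩ m
      have h1 : ∑ i ∈ Finset.range m, g i y • f i
          = ∑ i ∈ Finset.range m, B.repr ⟨y, hy⟩ i • f i :=
        Finset.sum_congr rfl (fun i _ => by rw [← hgB i ⟨y, hy⟩])
      change ‖∑ i ∈ Finset.range m, g i y • f i‖ ≤ C * ‖y‖
      rw [h1]
      exact h0
    exact closure_minimal hsub hclosed hx
  have hconv : ∀ x : E, x ∈ V → Tendsto (fun m => ∑ i ∈ Finset.range m, g i x • f i) atTop (𝓝 x) := by
    intro x hx
    rw [Metric.tendsto_atTop]
    intro ε hε
    obtain ⟨y, hy, hxy⟩ : ∃ y ∈ S, dist x y < ε / (C + 2) := by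
      have : x ∈ closure (S : Set E) := hx
      rw [Metric.mem_closure_iff] at this
      exact this _ (by positivity)
    obtain ⟨N, hN⟩ := hexp ⟨y, hy⟩
    refine ⟨N, fun m hm => ?_⟩
    have h1 : ∑ i ∈ Finset.range m, g i x • f i - x
        = ∑ i ∈ Finset.range m, g i (x - y) • f i - (x - y) := by
      have h2 : ∑ i ∈ Finset.range m, g i y • f i = y := by
        have h0 : ∑ i ∈ Finset.range m, B.repr ⟨y, hy⟩ i • f i = y := hN m hm
        refine Eq.trans ?_ h0
        apply Finset.sum_congr rfl
        intro i _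
        rw [← hgB i ⟨y, hy⟩]
      simp only [map_sub, sub_smul, Finset.sum_sub_distrib, h2]
      abel
    rw [dist_eq_norm, h1]
    have hxyV : x - y ∈ V := V.sub_mem hx (hSV hy)
    have h3 := hPS (x - y) hxyV m
    have h4 : ‖x - y‖ < ε / (C + 2) := by rwa [← dist_eq_norm]
    calc ‖∑ i ∈ Finset.range m, g i (x - y) • f i - (x - y)‖
        ≤ ‖∑ i ∈ Finset.range m, g i (x - y) • f i‖ + ‖x - y‖ := norm_sub_le _ _
      _ ≤ C * ‖x - y‖ + ‖x - y‖ := by linarith
      _ ≤ (C + 2) * ‖x - y‖ := by nlinarith [norm_nonneg (x - y)]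
      _ < (C + 2) * (ε / (C + 2)) := by
          apply mul_lt_mul_of_pos_left h4; positivity
      _ = ε := by field_simp
  let b : SchauderBasis ℝ V :=
    { basis := e
      coord := co
      ortho := by
        intro i j
        rw [hco]
        refine (hgf i j).trans ?_
        simp only [Pi.single_apply]
        split_ifs <;> rfl
      expansion := by
        intro x
        rw [HasSum, SummationFilter.conditional_filter_eq_map_range, tendsto_map'_iff]
        rw [tendsto_subtype_rng]
        refine (hconv x x.2).congr (fun m => ?_)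
        simp only [Function.comp]
        rw [AddSubmonoidClass.coe_finsetSum]
        exact Finset.sum_congr rfl (fun i _ => rfl) }
  refine ⟨b, fun n => rfl, fun n => ?_⟩
  refine ContinuousLinearMap.opNorm_le_bound _ hC0 (fun x => ?_)
  rw [SchauderBasis.proj_apply]
  have h5 := hPS x x.2 n
  have h6 : ((∑ i ∈ Finset.range n, b.coord i x • b i : V) : E)
      = ∑ i ∈ Finset.range n, g i (x : E) • f i := by
    rw [AddSubmonoidClass.coe_finsetSum]
    exact Finset.sum_congr rfl (fun i _ => rfl)
  rw [← Submodule.norm_coe, h6]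
  exact h5

end Pool.Agent.Helper35.NonnegBasis
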