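import Mathlib

set_option autoImplicit false

open MeasureTheory
open scoped ENNReal

namespace Pool.Agent.Helper35.NonnegBasis

section

variable {α β : Type*} [MeasurableSpace α] [MeasurableSpace β] {μ : Measure α} {ν : Measure β}
  {p : ℝ≥0∞} {w : α → ℝ} {κ : α → β}

lemma ae_comp (hpp : 0 < p.toReal) (hw : Measurable w) (hκ : Measurable κ)
    (h : (μ.withDensity (fun x => ‖w x‖ₑ ^ p.toReal)).map κ = ν) {Q : β → Prop}
    (hQ : ∀ᵐ y ∂ν, Q y) : ∀ᵐ x ∂μ, w x ≠ 0 → Q (κ x) := by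
  rw [← h] at hQ
  have h1 := ae_of_ae_map hκ.aemeasurable hQ
  rw [ae_withDensity_iff (by fun_prop)] at h1
  filter_upwards [h1] with x hx hw0
  apply hx
  intro h0
  rw [ENNReal.rpow_eq_zero_iff] at h0
  rcases h0 with h0 | h0
  · exact hw0 (by simpa using h0.1)
  · linarith [h0.2]

lemma eLpNorm_comp (hp0 : p ≠ 0) (hp : p ≠ ∞) (hw : Measurable w) (hκ : Measurable κ)
    (h : (μ.withDensity (fun x => ‖w x‖ₑ ^ p.toReal)).map κ = ν) {g : β → ℝ}
    (hg : StronglyMeasurable g) :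
    eLpNorm (fun x => w x * g (κ x)) p μ = eLpNorm g p ν := by
  have hpp : 0 < p.toReal := ENNReal.toReal_pos hp0 hp
  rw [eLpNorm_eq_lintegral_rpow_enorm_toReal hp0 hp, eLpNorm_eq_lintegral_rpow_enorm_toReal hp0 hp]
  congr 1
  have hgm : Measurable g := hg.measurable
  rw [← h, lintegral_map (by fun_prop) hκ, lintegral_withDensity_eq_lintegral_mul _ (by fun_prop)
    (by fun_prop)]
  refine lintegral_congr (fun x => ?_)
  rw [Pi.mul_apply, enorm_mul, ENNReal.mul_rpow_of_nonneg _ _ hpp.le]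

/-- weighted composition operators which are isometries -/
theorem exists_isometry [Fact (1 ≤ p)] (hp : p ≠ ∞) (hw : Measurable w) (hκ : Measurable κ)
    (h : (μ.withDensity (fun x => ‖w x‖ₑ ^ p.toReal)).map κ = ν) :
    ∃ J : Lp ℝ p ν →ₗᵢ[ℝ] Lp ℝ p μ, ∀ g : Lp ℝ p ν, (J g : α → ℝ) =ᵐ[μ] fun x => w x * g (κ x) := by
  have hp0 : p ≠ 0 := (lt_of_lt_of_le zero_lt_one (Fact.out : 1 ≤ p)).ne'
  have hpp : 0 < p.toReal := ENNReal.toReal_pos hp0 hp
  have hmem : ∀ g : Lp ℝ p ν, MemLp (fun x => w x * g (κ x)) p μ := by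
    intro g
    refine ⟨?_, ?_⟩
    · have hg := (Lp.stronglyMeasurable g).measurable
      exact (hw.mul (hg.comp hκ)).aestronglyMeasurable
    · rw [eLpNorm_comp hp0 hp hw hκ h (Lp.stronglyMeasurable g)]
      exact Lp.eLpNorm_lt_top g
  refine ⟨⟨⟨⟨fun g => (hmem g).toLp _, ?_⟩, ?_⟩, ?_⟩, ?_⟩
  · intro g1 g2
    apply Lp.ext
    filter_upwards [(hmem (g1 + g2)).coeFn_toLp, (hmem g1).coeFn_toLp, (hmem g2).coeFn_toLp,
      Lp.coeFn_add ((hmem g1).toLp _) ((hmem g2).toLp _),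
      ae_comp hpp hw hκ h (Lp.coeFn_add g1 g2)] with x h1 h2 h3 h4 h5
    rw [h1, h4, Pi.add_apply, h2, h3]
    by_cases hx : w x = 0
    · rw [hx]; ring
    · rw [h5 hx, Pi.add_apply]; ring
  · intro c g
    apply Lp.ext
    filter_upwards [(hmem (c • g)).coeFn_toLp, (hmem g).coeFn_toLp,
      Lp.coeFn_smul c ((hmem g).toLp _),
      ae_comp hpp hw hκ h (Lp.coeFn_smul c g)] with x h1 h2 h4 h5
    rw [h1]
    simp only [RingHom.id_apply]
    rw [h4, Pi.smul_apply, h2]
    by_cases hx : w x = 0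
    · rw [hx]; simp
    · rw [h5 hx, Pi.smul_apply, smul_eq_mul, smul_eq_mul]; ring
  · intro g
    show ‖(hmem g).toLp _‖ = ‖g‖
    rw [Lp.norm_toLp, eLpNorm_comp hp0 hp hw hκ h (Lp.stronglyMeasurable g), Lp.norm_def]
  · intro g
    exact (hmem g).coeFn_toLp

end

open unitInterval ProbabilityTheory in
/-- `L_p(ℝ)` embeds isometrically into `L_p` of the unit interval -/
theorem exists_isometry_unitInterval (p : ℝ≥0∞) [Fact (1 ≤ p)] (hp : p ≠ ∞) :
    ∃ _J : Lp ℝ p (volume : Measure ℝ) →ₗᵢ[ℝ] Lp ℝ p (volume : Measure I), True := by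
  have hp0 : p ≠ 0 := (lt_of_lt_of_le zero_lt_one (Fact.out : 1 ≤ p)).ne'
  have hpp : 0 < p.toReal := ENNReal.toReal_pos hp0 hp
  obtain ⟨ψ, hψ, hmap⟩ := Measure.exists_measurable_map_eq (gaussianReal 0 1)
  have hρ : ∀ x, 0 < gaussianPDFReal 0 1 x := fun x => gaussianPDFReal_pos 0 1 x one_ne_zero
  have hρm : Measurable (gaussianPDFReal 0 1) := measurable_gaussianPDFReal 0 1
  let w : I → ℝ := fun x => (gaussianPDFReal 0 1 (ψ x)) ^ (-(1 / p.toReal))
  have hw : Measurable w := by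
    have := hρm.comp hψ
    exact this.pow_const _
  have hwe : ∀ x, ‖w x‖ₑ ^ p.toReal = (ENNReal.ofReal (gaussianPDFReal 0 1 (ψ x)))⁻¹ := by
    intro x
    have h1 : 0 ≤ w x := (Real.rpow_nonneg (hρ _).le _)
    rw [Real.enorm_eq_ofReal h1, ENNReal.ofReal_rpow_of_nonneg h1 hpp.le,
      ← ENNReal.ofReal_inv_of_pos (hρ _)]
    congr 1
    simp only [w]
    rw [← Real.rpow_mul (hρ _).le]
    rw [show -(1 / p.toReal) * p.toReal = -1 by field_simp, Real.rpow_neg_one]
  have h : ((volume : Measure I).withDensity (fun x => ‖w x‖ₑ ^ p.toReal)).map ψ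
      = (volume : Measure ℝ) := by
    have h2 : (fun x => ‖w x‖ₑ ^ p.toReal)
        = (fun y => (ENNReal.ofReal (gaussianPDFReal 0 1 y))⁻¹) ∘ ψ := by
      funext x
      rw [hwe x]; rfl
    have hm : Measurable (fun y => (ENNReal.ofReal (gaussianPDFReal 0 1 y))⁻¹) := by fun_prop
    have h3 : ((volume : Measure I).withDensity (fun x => ‖w x‖ₑ ^ p.toReal)).map ψ
        = ((volume : Measure I).map ψ).withDensity
          (fun y => (ENNReal.ofReal (gaussianPDFReal 0 1 y))⁻¹) := by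
      ext s hs
      rw [Measure.map_apply hψ hs, withDensity_apply _ (hψ hs), withDensity_apply _ hs, h2,
        setLIntegral_map hs hm hψ]
      rfl
    rw [h3, hmap, gaussianReal_of_var_ne_zero 0 one_ne_zero]
    have h4 : gaussianPDF 0 1 = fun y => ENNReal.ofReal (gaussianPDFReal 0 1 y) := rfl
    rw [h4, ← withDensity_mul _ (by fun_prop) hm]
    have h5 : ((fun y => ENNReal.ofReal (gaussianPDFReal 0 1 y))
        * fun y => (ENNReal.ofReal (gaussianPDFReal 0 1 y))⁻¹) = 1 := by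
      funext y
      rw [Pi.mul_apply, Pi.one_apply, ENNReal.mul_inv_cancel]
      · have := hρ y
        simpa using this
      · exact ENNReal.ofReal_ne_top
    rw [h5, withDensity_one]
  obtain ⟨J, -⟩ := exists_isometry (μ := (volume : Measure I)) (ν := (volume : Measure ℝ)) hp hw hψ h
  exact ⟨J, trivial⟩

end Pool.Agent.Helper35.NonnegBasis
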