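import Mathlib
import Pool.Agent.Helper35.NonnegBasis.Grunblum
import Pool.Agent.Helper35.NonnegBasis.Isom
import Pool.Agent.Helper35.NonnegBasis.Digits

set_option autoImplicit false

open MeasureTheory Finset unitInterval
open scoped ENNReal

namespace Pool.Agent.Helper35.NonnegBasis

namespace Par

variable (P : Par) (p : ℝ≥0∞)

lemma coeFn_step (K : ℕ) (h : ℕ → ℝ) :
    ((∑ r ∈ range (P.S K), h (P.idx K r) • P.E p K r : Lp ℝ p (volume : Measure ℝ)) : ℝ → ℝ)
      =ᵐ[volume] (Set.Ico (0 : ℝ) 1).indicator (fun x => h (P.dy K x)) := by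
  have h1 := coeFn_sum_ind (μ := (volume : Measure ℝ)) p (range (P.S K))
    (fun r : ℕ => Set.Ico ((r : ℝ) / P.S K) (((r : ℝ) + 1) / P.S K)) (fun _ => measurableSet_Ico)
    (fun _ => by simp) (fun r => h (P.idx K r))
  refine h1.trans (Filter.Eventually.of_forall (fun x => ?_))
  have hS' : (0 : ℝ) < P.S K := by exact_mod_cast P.S_pos K
  show ∑ i ∈ range (P.S K), (Set.Ico ((i : ℝ) / P.S K) (((i : ℝ) + 1) / P.S K)).indicator
      (fun _ => h (P.idx K i)) x = (Set.Ico (0 : ℝ) 1).indicator (fun x => h (P.dy K x)) x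
  by_cases hx : x ∈ Set.Ico (0 : ℝ) 1
  · rw [Set.indicator_of_mem hx, Finset.sum_eq_single_of_mem ⌊x * P.S K⌋₊
      (Finset.mem_range.mpr (P.floor_lt hx.2))]
    · rw [Set.indicator_of_mem (P.mem_atom.mpr ⟨hx.1, rfl⟩)]
      rfl
    · intro r _ hr
      rw [Set.indicator_of_notMem]
      rw [P.mem_atom]
      rintro ⟨_, h2⟩
      exact hr h2.symm
  · rw [Set.indicator_of_notMem hx]
    refine Finset.sum_eq_zero (fun r hr => ?_)
    rw [Set.indicator_of_notMem]
    rw [P.mem_atom]
    rintro ⟨h1, h2⟩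
    apply hx
    refine ⟨h1, ?_⟩
    have h5 : x * P.S K < r + 1 := by
      have := Nat.lt_floor_add_one (x * P.S K)
      rw [h2] at this
      exact this
    have h6 : (r : ℝ) + 1 ≤ P.S K := by exact_mod_cast Finset.mem_range.mp hr
    nlinarith

/-- the closed span contains an isometric copy of `L_p(ℝ)` -/
theorem exists_embedding [Fact (1 ≤ p)] (hp : p ≠ ∞) :
    ∃ J : Lp ℝ p (volume : Measure ℝ) →ₗᵢ[ℝ] Lp ℝ p (volume : Measure ℝ),
      ∀ g, J g ∈ (Submodule.span ℝ (Set.range (P.f p))).topologicalClosure := by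
  have hp0 : p ≠ 0 := (lt_of_lt_of_le zero_lt_one (Fact.out : 1 ≤ p)).ne'
  have hpp : 0 < p.toReal := ENNReal.toReal_pos hp0 hp
  obtain ⟨U, -⟩ := exists_isometry_unitInterval p hp
  let w : ℝ → ℝ := (Set.Ico (0 : ℝ) 1).indicator 1
  have hw : Measurable w := measurable_one.indicator measurableSet_Ico
  have hmap : ((volume : Measure ℝ).withDensity (fun x => ‖w x‖ₑ ^ p.toReal)).map P.btI
      = (volume : Measure I) := by
    have h1 : (fun x => ‖w x‖ₑ ^ p.toReal) = (Set.Ico (0 : ℝ) 1).indicator (1 : ℝ → ℝ≥0∞) := by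
      funext x
      by_cases hx : x ∈ Set.Ico (0 : ℝ) 1
      · simp [w, hx]
      · simp [w, hx, hpp]
    rw [h1, withDensity_indicator_one measurableSet_Ico]
    exact P.map_btI
  obtain ⟨C, hC⟩ := exists_isometry (μ := (volume : Measure ℝ)) (ν := (volume : Measure I)) hp hw
    P.measurable_btI hmap
  set V := (Submodule.span ℝ (Set.range (P.f p))).topologicalClosure with hV
  have hVc : IsClosed (V : Set (Lp ℝ p (volume : Measure ℝ))) :=
    Submodule.isClosed_topologicalClosure _
  have hmain : ∀ h : C(I, ℝ), C (ContinuousMap.toLp p (volume : Measure I) ℝ h) ∈ V := by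
    intro h
    rw [← SetLike.mem_coe, hV, Submodule.topologicalClosure_coe, Metric.mem_closure_iff]
    intro ε hε
    have hu : UniformContinuous h := CompactSpace.uniformContinuous_of_continuous h.continuous
    rw [Metric.uniformContinuous_iff] at hu
    obtain ⟨δ, hδ, hδ2⟩ := hu (ε / 2) (by positivity)
    obtain ⟨K, hK⟩ := exists_pow_lt_of_lt_one hδ (show (1 / 2 : ℝ) < 1 by norm_num)
    let h' : ℕ → ℝ := fun j => h (Set.projIcc (0 : ℝ) 1 zero_le_one ((j : ℝ) / 2 ^ K))
    refine ⟨∑ r ∈ range (P.S K), h' (P.idx K r) • P.E p K r, P.step_mem p K h', ?_⟩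
    rw [dist_eq_norm]
    have hE : ‖P.E p 0 0‖ = 1 := by
      have h1 := P.E_norm_pow p hp0 hp 0 0
      simp only [S, Nat.cast_one, div_one] at h1
      have h2 : ‖P.E p 0 0‖ ^ p.toReal = 1 ^ p.toReal := by rw [h1, Real.one_rpow]
      exact (Real.rpow_left_inj (norm_nonneg _) zero_le_one hpp.ne').mp h2
    have hbound : ‖C (ContinuousMap.toLp p (volume : Measure I) ℝ h)
        - ∑ r ∈ range (P.S K), h' (P.idx K r) • P.E p K r‖ ≤ (ε / 2) * ‖P.E p 0 0‖ := by
      apply Lp.norm_le_mul_norm_of_ae_le_mul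
      have hae := ae_comp (μ := (volume : Measure ℝ)) hpp hw P.measurable_btI hmap
        (ContinuousMap.coeFn_toLp (p := p) (volume : Measure I) (𝕜 := ℝ) h)
      filter_upwards [hC (ContinuousMap.toLp p (volume : Measure I) ℝ h), P.coeFn_step p K h',
        Lp.coeFn_sub (C (ContinuousMap.toLp p (volume : Measure I) ℝ h))
          (∑ r ∈ range (P.S K), h' (P.idx K r) • P.E p K r), P.coeFn_step p 0 (fun _ => 1), hae]
        with x h1 h2 h3 h4 h5
      simp only [S, Finset.sum_range_one, one_smul] at h4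
      rw [h3, Pi.sub_apply, h1, h2, h4]
      by_cases hx : x ∈ Set.Ico (0 : ℝ) 1
      · have hwx : w x = 1 := by simp [w, hx]
        rw [hwx] at h5
        rw [h5 one_ne_zero, Set.indicator_of_mem hx, Set.indicator_of_mem hx, hwx, one_mul,
          norm_one, mul_one]
        have hd : dist (P.btI x)
            (Set.projIcc (0 : ℝ) 1 zero_le_one ((P.dy K x : ℝ) / 2 ^ K)) < δ := by
          have hm : (P.dy K x : ℝ) / 2 ^ K ∈ Set.Icc (0 : ℝ) 1 :=
            ⟨by positivity, P.dy_le_one K x⟩
          rw [Set.projIcc_of_mem _ hm, Subtype.dist_eq, Real.dist_eq]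
          show |P.bt x - (P.dy K x : ℝ) / 2 ^ K| < δ
          have h6 := P.le_bt K x
          have h7 := P.bt_le K x
          rw [add_div] at h7
          rw [one_div_pow] at hK
          rw [abs_lt]
          constructor <;> linarith
        have := hδ2 hd
        rw [Real.dist_eq] at this
        rw [Real.norm_eq_abs]
        exact this.le
      · have hwx : w x = 0 := by simp [w, hx]
        rw [Set.indicator_of_notMem hx, Set.indicator_of_notMem hx, hwx]
        simp
    rw [hE, mul_one] at hbound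
    linarith
  have hall : ∀ g : Lp ℝ p (volume : Measure I), C g ∈ V := by
    have hcl : IsClosed {g : Lp ℝ p (volume : Measure I) | C g ∈ V} :=
      hVc.preimage C.continuous
    have hdense := ContinuousMap.toLp_denseRange ℝ (μ := (volume : Measure I)) (p := p) (𝕜 := ℝ) hp
    intro g
    have h1 : Set.range (ContinuousMap.toLp p (volume : Measure I) ℝ :
        C(I, ℝ) →L[ℝ] Lp ℝ p (volume : Measure I)) ⊆ {g | C g ∈ V} := by
      rintro _ ⟨h, rfl⟩
      exact hmain h
    have h2 := hcl.closure_subset_iff.mpr h1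
    exact h2 (hdense g)
  exact ⟨C.comp U, fun g => hall (U g)⟩

end Par

end Pool.Agent.Helper35.NonnegBasis
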